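import Pool.Agent.Helper321.VH.Core

set_option autoImplicit false

namespace Pool.Agent.Helper321.VH

/-- the hypothesis with `n` infinite subsets -/
def Sharp {n : ℕ} (w : FreeGroup (Fin n)) (G : Type*) [Group G] : Prop :=
  ∀ X : Fin n → Set G, (∀ i, (X i).Infinite) →
    ∃ x : Fin n → G, (∀ i, x i ∈ X i) ∧ FreeGroup.lift x w = 1

theorem small_arc {A : Type*} [AddCommGroup A] [Infinite A] (f : A →+ AddCircle (1 : ℚ))
    (ε : ℚ) (hε : 0 < ε) :
    {a : A | ∃ t : ℚ, |t| < ε ∧ f a = (t : AddCircle (1 : ℚ))}.Infinite := by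
  haveI : Fact ((0 : ℚ) < 1) := ⟨one_pos⟩
  obtain ⟨N, hN⟩ := exists_nat_one_div_lt hε
  set M : ℕ := N + 1 with hM
  have hMpos : (0 : ℚ) < (M : ℚ) := by positivity
  have hMε : 1 / (M : ℚ) < ε := by
    rw [hM]; push_cast; exact hN
  let r : A → ℚ := fun a => ((AddCircle.equivIco (1 : ℚ) 0 (f a)) : ℚ)
  have hr0 : ∀ a, 0 ≤ r a := fun a => (AddCircle.equivIco (1 : ℚ) 0 (f a)).2.1
  have hr1 : ∀ a, r a < 1 := fun a => by
    have := (AddCircle.equivIco (1 : ℚ) 0 (f a)).2.2
    simpa using this
  have hrf : ∀ a, ((r a : ℚ) : AddCircle (1 : ℚ)) = f a := fun a =>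
    (AddCircle.equivIco (1 : ℚ) 0).symm_apply_apply (f a)
  let κ : A → Fin M := fun a => ⟨⌊(M : ℚ) * r a⌋₊, by
    rw [Nat.floor_lt (mul_nonneg hMpos.le (hr0 a))]
    nlinarith [hr1 a]⟩
  obtain ⟨c, hc⟩ := Finite.exists_infinite_fiber κ
  have hinf : (κ ⁻¹' {c}).Infinite := Set.infinite_coe_iff.mp hc
  obtain ⟨a0, ha0⟩ := hinf.nonempty
  have himg : ((fun a => a - a0) '' (κ ⁻¹' {c})).Infinite :=
    hinf.image (by
      intro x _ y _ hxy
      simpa using hxy)
  refine himg.mono ?_
  rintro _ ⟨a, ha, rfl⟩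
  refine ⟨r a - r a0, ?_, ?_⟩
  · have h1 : ⌊(M : ℚ) * r a⌋₊ = ⌊(M : ℚ) * r a0⌋₊ := by
      have h2 : κ a = κ a0 := by
        rw [Set.mem_preimage, Set.mem_singleton_iff] at ha ha0
        rw [ha, ha0]
      exact congrArg Fin.val h2
    have h3 := Nat.floor_le (mul_nonneg hMpos.le (hr0 a))
    have h4 := Nat.lt_floor_add_one ((M : ℚ) * r a)
    have h5 := Nat.floor_le (mul_nonneg hMpos.le (hr0 a0))
    have h6 := Nat.lt_floor_add_one ((M : ℚ) * r a0)
    rw [h1] at h3 h4
    have h7 : |(M : ℚ) * (r a - r a0)| < 1 := by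
      rw [abs_lt]; constructor <;> nlinarith
    rw [abs_mul, abs_of_pos hMpos] at h7
    calc |r a - r a0| < 1 / (M : ℚ) := by
          rw [lt_div_iff₀ hMpos]; linarith
      _ < ε := hMε
  · rw [map_sub, ← hrf a, ← hrf a0]
    simp

variable {G : Type*} [Group G]

theorem abel_case {n : ℕ} (w : FreeGroup (Fin n)) (hs : Sharp w G)
    (A : Subgroup G) [hA : A.Normal] (hcomm : ∀ x ∈ A, ∀ y ∈ A, x * y = y * x)
    (hinf : (A : Set G).Infinite) (g : Fin n → G) : FreeGroup.lift g w = 1 := by
  classical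
  by_contra hz
  obtain ⟨H, hHf, h1, h2⟩ := exp_exists w g
  have hLA : ∀ u : Fin n → G, (∀ i, u i ∈ A) → L w g u ∈ A := by
    intro u hu
    refine h1 u A fun i h _ => ?_
    have := hA.conj_mem (u i) (hu i) h⁻¹
    simpa using this
  have hLmul : ∀ u u' : Fin n → G, (∀ i, u i ∈ A) → (∀ i, u' i ∈ A) →
      L w g (u * u') = L w g u * L w g u' := by
    intro u u' hu hu'
    refine h2 u u' fun i j h _ h' _ => ?_
    have a1 : h⁻¹ * u i * h ∈ A := by
      have := hA.conj_mem (u i) (hu i) h⁻¹
      simpa using this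
    have a2 : h'⁻¹ * u' j * h' ∈ A := by
      have := hA.conj_mem (u' j) (hu' j) h'⁻¹
      simpa using this
    exact hcomm _ a1 _ a2
  by_cases hzA : FreeGroup.lift g w ∈ A
  · -- use a character
    letI : CommGroup A := { (inferInstance : Group A) with
      mul_comm := fun x y => Subtype.ext (hcomm x.1 x.2 y.1 y.2) }
    haveI : Infinite A := hinf.to_subtype
    let Λ : (Fin n → A) →* A :=
      { toFun := fun u => ⟨L w g (fun i => (u i : G)), hLA _ fun i => (u i).2⟩
        map_one' := by
          apply Subtype.ext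
          have : L w g (fun i => (((1 : Fin n → A) i : A) : G)) = 1 := by
            have e : (fun i => (((1 : Fin n → A) i : A) : G)) = (1 : Fin n → G) := by
              funext i; simp
            rw [e]; simp [L]
          simpa using this
        map_mul' := by
          intro u v
          apply Subtype.ext
          have := hLmul (fun i => (u i : G)) (fun i => (v i : G)) (fun i => (u i).2)
            (fun i => (v i).2)
          exact this }
    let z : A := ⟨FreeGroup.lift g w, hzA⟩
    have hz1 : Additive.ofMul z ≠ 0 := by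
      intro h
      apply hz
      have h3 : z = 1 := by simpa using h
      exact congrArg Subtype.val h3
    obtain ⟨χ, hχ⟩ := CharacterModule.exists_character_apply_ne_zero_of_ne_zero hz1
    haveI : Fact ((0 : ℚ) < 1) := ⟨one_pos⟩
    let χ' : Additive A →+ AddCircle (1 : ℚ) := χ
    set r : ℚ := ((AddCircle.equivIco (1 : ℚ) 0 (χ' (Additive.ofMul z))) : ℚ) with hr
    have hr0 : 0 ≤ r := (AddCircle.equivIco (1 : ℚ) 0 (χ' (Additive.ofMul z))).2.1
    have hr1 : r < 1 := by
      have := (AddCircle.equivIco (1 : ℚ) 0 (χ' (Additive.ofMul z))).2.2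
      simpa using this
    have hrf : ((r : ℚ) : AddCircle (1 : ℚ)) = χ' (Additive.ofMul z) :=
      (AddCircle.equivIco (1 : ℚ) 0).symm_apply_apply _
    have hr00 : 0 < r := by
      rcases hr0.lt_or_eq with h | h
      · exact h
      · exfalso
        apply hχ
        change χ' (Additive.ofMul z) = 0
        rw [← hrf, ← h]; simp
    set ε : ℚ := min r (1 - r) / (n + 1) with hε
    have hεpos : 0 < ε := by
      have : 0 < min r (1 - r) := lt_min hr00 (by linarith)
      positivity
    let f : Fin n → (Additive A →+ AddCircle (1 : ℚ)) := fun i =>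
      χ'.comp (MonoidHom.toAdditive (Λ.comp (MonoidHom.mulSingle (fun _ : Fin n => A) i)))
    have hS : ∀ i, {a : A | ∃ t : ℚ, |t| < ε ∧
        f i (Additive.ofMul a) = (t : AddCircle (1 : ℚ))}.Infinite := fun i =>
      small_arc (f i) ε hεpos
    let X : Fin n → Set G := fun i => (fun a : A => g i * (a : G)) '' {a : A | ∃ t : ℚ, |t| < ε ∧
        f i (Additive.ofMul a) = (t : AddCircle (1 : ℚ))}
    obtain ⟨x, hx, hwx⟩ := hs X (fun i => (hS i).image (by
      intro a _ b _ hab
      apply Subtype.ext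
      simpa using hab))
    choose a ha hax using hx
    choose t ht hft using ha
    have hxg : x = g * (fun i => (a i : G)) := by
      funext i
      rw [Pi.mul_apply]
      exact (hax i).symm
    rw [hxg, lift_mul_eq] at hwx
    have hΛ : z * Λ a = 1 := by
      apply Subtype.ext
      simpa [z, Λ] using hwx
    have hprod : Λ a = ∏ i, Λ (Pi.mulSingle i (a i)) := by
      rw [← map_prod, Finset.univ_prod_mulSingle]
    have hsum : χ' (Additive.ofMul z) + ∑ i, f i (Additive.ofMul (a i)) = 0 := by
      have h4 : χ' (Additive.ofMul (z * Λ a)) = 0 := by rw [hΛ]; simp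
      rw [ofMul_mul, map_add, hprod, ofMul_prod, map_sum] at h4
      exact h4
    have hsum2 : ((r + ∑ i, t i : ℚ) : AddCircle (1 : ℚ)) = 0 := by
      rw [← hsum, ← hrf]
      rw [AddCircle.coe_add]
      congr 1
      rw [Finset.sum_congr rfl (fun i _ => hft i)]
      exact map_sum (QuotientAddGroup.mk' (AddSubgroup.zmultiples (1 : ℚ))) t Finset.univ
    have hbound : |∑ i, t i| < min r (1 - r) := by
      have h5 : |∑ i, t i| ≤ ∑ i : Fin n, ε :=
        (Finset.abs_sum_le_sum_abs _ _).trans (Finset.sum_le_sum fun i _ => (ht i).le)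
      have h6 : ∑ i : Fin n, ε = n * ε := by simp
      have h7 : (n : ℚ) * ε < min r (1 - r) := by
        have h8 : ((n : ℚ) + 1) * ε = min r (1 - r) := by
          rw [hε]; field_simp
        nlinarith
      linarith
    rw [AddCircle.coe_eq_zero_iff] at hsum2
    obtain ⟨k, hk⟩ := hsum2
    have hk' : (k : ℚ) = r + ∑ i, t i := by simpa using hk
    have hb := abs_lt.mp hbound
    have h9 : min r (1 - r) ≤ r := min_le_left _ _
    have h10 : min r (1 - r) ≤ 1 - r := min_le_right _ _
    have h11 : (0 : ℚ) < k := by rw [hk']; linarith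
    have h12 : (k : ℚ) < 1 := by rw [hk']; linarith
    have h13 : (0 : ℤ) < k := by exact_mod_cast h11
    have h14 : k < (1 : ℤ) := by exact_mod_cast h12
    omega
  · -- trivial case
    let X : Fin n → Set G := fun i => (fun a : G => g i * a) '' (A : Set G)
    obtain ⟨x, hx, hwx⟩ := hs X (fun i => hinf.image (by
      intro a _ b _ hab
      simpa using hab))
    choose a ha hax using hx
    have hxg : x = g * a := by
      funext i
      rw [Pi.mul_apply]
      exact (hax i).symm
    rw [hxg, lift_mul_eq] at hwx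
    apply hzA
    have := hLA a ha
    have h3 : FreeGroup.lift g w = (L w g a)⁻¹ := eq_inv_of_mul_eq_one_left hwx
    rw [h3]
    exact A.inv_mem this

end Pool.Agent.Helper321.VH
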