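import Pool.Agent.Helper321.VH.Lin

set_option autoImplicit false

namespace Pool.Agent.Helper321.VH

/-- Schur/Ramsey for triangles -/
theorem ramsey_tri (α : Type*) [DecidableEq α] (m : ℕ) :
    ∃ N : ℕ, ∀ (C : Finset α) (_ : C.card ≤ m) (c : ℕ → ℕ → α) (V : Finset ℕ)
      (_ : N ≤ V.card) (_ : ∀ i ∈ V, ∀ j ∈ V, i < j → c i j ∈ C),
      ∃ i ∈ V, ∃ j ∈ V, ∃ k ∈ V, i < j ∧ j < k ∧ c i j = c j k ∧ c i j = c i k := by
  induction m with
  | zero =>
    refine ⟨2, fun C hC c V hV hc => ?_⟩
    have hC0 : C = ∅ := Finset.card_eq_zero.mp (by omega)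
    obtain ⟨a, ha, b, hb, hab⟩ := Finset.one_lt_card.mp (show 1 < V.card by omega)
    rcases lt_or_gt_of_ne hab with h | h
    · have := hc a ha b hb h; rw [hC0] at this; simp at this
    · have := hc b hb a ha h; rw [hC0] at this; simp at this
  | succ m ih =>
    obtain ⟨N, hN⟩ := ih
    refine ⟨(m + 1) * N + 1, fun C hC c V hV hc => ?_⟩
    have hVne : V.Nonempty := Finset.card_pos.mp (by omega)
    set a := V.min' hVne with ha
    have haV : a ∈ V := V.min'_mem hVne
    have hlt : ∀ s ∈ V.erase a, a < s := fun s hs => by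
      rw [Finset.mem_erase] at hs
      exact lt_of_le_of_ne (V.min'_le s hs.2) (Ne.symm hs.1)
    have hcard : (m + 1) * N ≤ (V.erase a).card := by
      rw [Finset.card_erase_of_mem haV]; omega
    by_cases hN0 : V.erase a = ∅
    · -- then V = {a}, N = 0
      have h0 : (V.erase a).card = 0 := by rw [hN0]; rfl
      have hNz : N = 0 := by
        rw [h0] at hcard
        rcases mul_eq_zero.mp (Nat.le_zero.mp hcard) with h | h
        · omega
        · exact h
      exfalso
      obtain ⟨i, hi, _⟩ := hN ∅ (by simp) c ∅ (by simp [hNz]) (by simp)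
      simp at hi
    have hne : C.Nonempty := by
      obtain ⟨s, hs⟩ := Finset.nonempty_iff_ne_empty.mpr hN0
      exact ⟨_, hc a haV s (Finset.mem_of_mem_erase hs) (hlt s hs)⟩
    obtain ⟨col, hcol, hcolc⟩ := Finset.exists_le_card_fiber_of_mul_le_card_of_maps_to
      (s := V.erase a) (t := C) (f := fun s => c a s) (n := N)
      (fun s hs => hc a haV s (Finset.mem_of_mem_erase hs) (hlt s hs)) hne
      (le_trans (Nat.mul_le_mul_right N hC) hcard)
    set S := (V.erase a).filter fun s => c a s = col with hS
    have hSV : ∀ s ∈ S, s ∈ V ∧ a < s ∧ c a s = col := fun s hs => by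
      rw [hS, Finset.mem_filter] at hs
      exact ⟨Finset.mem_of_mem_erase hs.1, hlt s hs.1, hs.2⟩
    by_cases hex : ∃ i ∈ S, ∃ j ∈ S, i < j ∧ c i j = col
    · obtain ⟨i, hi, j, hj, hij, hcij⟩ := hex
      refine ⟨a, haV, i, (hSV i hi).1, j, (hSV j hj).1, (hSV i hi).2.1, hij, ?_, ?_⟩
      · rw [(hSV i hi).2.2, hcij]
      · rw [(hSV i hi).2.2, (hSV j hj).2.2]
    · push Not at hex
      obtain ⟨i, hi, j, hj, k, hk, h⟩ := hN (C.erase col)
        (by rw [Finset.card_erase_of_mem hcol]; omega) c S hcolc
        (fun i hi j hj hij => Finset.mem_erase.mpr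
          ⟨hex i hi j hj hij, hc i (hSV i hi).1 j (hSV j hj).1 hij⟩)
      exact ⟨i, (hSV i hi).1, j, (hSV j hj).1, k, (hSV k hk).1, h⟩

section
variable {G : Type*} [Group G]

/-- one can choose `N` elements one after the other, each outside a prescribed set of size at most
`t`, such that distinct ones cross-commute -/
def Ext (H : Set G) (t : ℕ) : ℕ → Set G → Prop
  | 0, _ => True
  | (N + 1), D => ∀ A : Finset G, A.card ≤ t → ∃ y ∈ D, y ∉ A ∧ Ext H t N {z | z ∈ D ∧ Cross H y z}

theorem Ext.mono {H : Set G} {t : ℕ} {N : ℕ} {D D' : Set G} (h : Ext H t N D) (hD : D ⊆ D') :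
    Ext H t N D' := by
  induction N generalizing D D' with
  | zero => trivial
  | succ N ih =>
    intro A hA
    obtain ⟨y, hy, hyA, hE⟩ := h A hA
    exact ⟨y, hD hy, hyA, ih hE fun z hz => ⟨hD hz.1, hz.2⟩⟩

theorem Ext.list {H : Set G} (T : Finset G) {t : ℕ} (M : ℕ) (ht : M * T.card ≤ t) (N : ℕ) :
    ∀ (D : Set G) (l : List G), l.length + N < M → Ext H t N D → l.Pairwise (Cross H) →
      (∀ x ∈ l, ∀ z ∈ D, Cross H x z) →
      (∀ a b, a < b → b ≤ l.length → (l.take a).prod⁻¹ * (l.take b).prod ∉ T) →
      ∃ l' : List G, l'.length = l.length + N ∧ l'.Pairwise (Cross H) ∧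
        (∀ a b, a < b → b ≤ l'.length → (l'.take a).prod⁻¹ * (l'.take b).prod ∉ T) := by
  classical
  induction N with
  | zero => intro D l _ _ h1 _ h2; exact ⟨l, rfl, h1, h2⟩
  | succ N ih =>
    intro D l hlen hE h1 h3 h2
    -- forbidden values
    let A : Finset G := (Finset.range (l.length + 1)).biUnion fun a =>
      T.image fun s => ((l.take a).prod⁻¹ * l.prod)⁻¹ * s
    have hAc : A.card ≤ t := by
      calc A.card ≤ (l.length + 1) * T.card := by
            refine (Finset.card_biUnion_le_card_mul _ _ T.card ?_).trans ?_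
            · intro a _; exact Finset.card_image_le
            · rw [Finset.card_range]
        _ ≤ M * T.card := Nat.mul_le_mul_right _ (by omega)
        _ ≤ t := ht
    obtain ⟨y, hyD, hyA, hE'⟩ := hE A hAc
    obtain ⟨l', hl'1, hl'2, hl'3⟩ := ih {z | z ∈ D ∧ Cross H y z} (l ++ [y])
      (by rw [List.length_append]; simp; omega) hE'
      (by
        rw [List.pairwise_append]
        refine ⟨h1, List.pairwise_singleton _ _, ?_⟩
        intro x hx z hz
        rw [List.mem_singleton] at hz
        subst hz
        exact h3 x hx z hyD)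
      (by
        intro x hx z hz
        rw [List.mem_append, List.mem_singleton] at hx
        rcases hx with hx | rfl
        · exact h3 x hx z hz.1
        · exact hz.2)
      (by
        intro a b hab hb
        rw [List.length_append, List.length_singleton] at hb
        have ha : a ≤ l.length := by omega
        have e1 : (l ++ [y]).take a = l.take a := by
          rw [List.take_append_of_le_length ha]
        rcases Nat.lt_or_ge b (l.length + 1) with hb' | hb'
        · have e2 : (l ++ [y]).take b = l.take b := by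
            rw [List.take_append_of_le_length (by omega)]
          rw [e1, e2]
          exact h2 a b hab (by omega)
        · have e2 : (l ++ [y]).take b = l ++ [y] := by
            apply List.take_of_length_le
            rw [List.length_append, List.length_singleton]; omega
          rw [e1, e2, List.prod_append, List.prod_singleton]
          intro hT
          apply hyA
          rw [Finset.mem_biUnion]
          refine ⟨a, Finset.mem_range.mpr (by omega), ?_⟩
          rw [Finset.mem_image]
          exact ⟨_, hT, by group⟩)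
    refine ⟨l', ?_, hl'2, hl'3⟩
    rw [hl'1, List.length_append, List.length_singleton]; omega

theorem Cross.list_both {H : Set G} (l l' : List G) (h : ∀ x ∈ l, ∀ y ∈ l', Cross H x y) :
    Cross H l.prod l'.prod := by
  refine Cross.list_right _ fun y hy => Cross.symm (Cross.list_right _ fun x hx => ?_)
  exact (h x hx y hy).symm

theorem cross_blocks {H : Set G} (l : List G) (hl : l.Pairwise (Cross H)) (i j k : ℕ)
    (hij : i < j) (hjk : j < k) :
    Cross H ((l.take i).prod⁻¹ * (l.take j).prod) ((l.take j).prod⁻¹ * (l.take k).prod) := by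
  have key : ∀ a b, a < b → (l.take a).prod⁻¹ * (l.take b).prod = ((l.take b).drop a).prod := by
    intro a b hab
    have h1 : (l.take b) = l.take a ++ (l.take b).drop a := by
      conv_lhs => rw [← List.take_append_drop a (l.take b)]
      rw [List.take_take, min_eq_left hab.le]
    conv_lhs => rw [h1]
    rw [List.prod_append]; group
  rw [key i j hij, key j k hjk]
  refine Cross.list_both _ _ ?_
  intro x hx y hy
  have hx' : x ∈ l.take j := List.mem_of_mem_drop hx
  have hy' : y ∈ l.drop j := by
    rw [List.drop_take] at hy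
    exact List.mem_of_mem_take hy
  have h2 : (l.take j ++ l.drop j).Pairwise (Cross H) := by rwa [List.take_append_drop]
  rw [List.pairwise_append] at h2
  exact h2.2.2 x hx' y hy'

theorem ext_znd (h : ∀ H : Set G, H.Finite → ∀ t N, Ext H t N (Set.univ : Set G)) : ZND G := by
  classical
  intro k v hv hfin
  -- expansion
  have hexp : ∀ j : Fin k, ∃ H : Set G, H.Finite ∧ ∀ x y : G, Cross H x y →
      (ev 1 (v j))⁻¹ * ev (x * y) (v j) =
        ((ev 1 (v j))⁻¹ * ev x (v j)) * ((ev 1 (v j))⁻¹ * ev y (v j)) := by
    intro j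
    obtain ⟨H, hH, _, h2⟩ := exp_exists (v j) (fun o : Option G => o.elim 1 id)
    refine ⟨H, hH, fun x y hxy => ?_⟩
    have h3 := h2 (fun o : Option G => o.elim x (fun _ => 1)) (fun o => o.elim y (fun _ => 1)) (by
      intro o o' a ha b hb
      cases o with
      | none =>
        cases o' with
        | none => exact hxy a ha b hb
        | some c => simp
      | some c => simp)
    have e : ∀ z : G, ((fun o : Option G => o.elim 1 id) *
        (fun o : Option G => o.elim z (fun _ => 1))) = fun o : Option G => o.elim z id := by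
      intro z
      funext o
      cases o <;> simp
    have e3 : (fun o : Option G => o.elim x (fun _ => 1)) * (fun o : Option G => o.elim y (fun _ => 1))
        = fun o : Option G => o.elim (x * y) (fun _ => 1) := by
      funext o
      cases o <;> simp
    simp only [L, e3, e] at h3
    exact h3
  choose H hHf hH using hexp
  set HH : Set G := ⋃ j, H j with hHH
  have hHHf : HH.Finite := Set.finite_iUnion hHf
  have hcr : ∀ j x y, Cross HH x y → Cross (H j) x y := by
    intro j x y hxy a ha b hb
    exact hxy a (Set.mem_iUnion.mpr ⟨j, ha⟩) b (Set.mem_iUnion.mpr ⟨j, hb⟩)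
  obtain ⟨N, hN⟩ := ramsey_tri (Option (Fin k)) (k + 1)
  set T : Finset G := hfin.toFinset with hT
  obtain ⟨l, hl1, hl2, hl3⟩ := Ext.list T (N + 1) le_rfl N Set.univ [] (by simp)
    (h HH hHHf ((N + 1) * T.card) N) (by simp) (by simp) (by
      intro a b hab hb
      simp at hb
      omega)
  rw [List.length_nil, zero_add] at hl1
  have hcol : ∀ a b, a < b → b ≤ N → ∃ j, ev ((l.take a).prod⁻¹ * (l.take b).prod) (v j) = 1 := by
    intro a b hab hb
    have := hl3 a b hab (by omega)
    rw [hT, Set.Finite.mem_toFinset] at this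
    simp only [Set.mem_ofPred_eq, not_forall, not_not] at this
    exact this
  let c : ℕ → ℕ → Option (Fin k) := fun a b =>
    if hc : ∃ j, ev ((l.take a).prod⁻¹ * (l.take b).prod) (v j) = 1 then some hc.choose else none
  obtain ⟨i, hi, j, hj, m, hm, hij, hjm, hc1, hc2⟩ := hN Finset.univ (by simp) c
    (Finset.range (N + 1)) (by simp) (by simp)
  rw [Finset.mem_range] at hi hj hm
  have hspec : ∀ a b, a < b → b ≤ N → ∃ q, c a b = some q ∧
      ev ((l.take a).prod⁻¹ * (l.take b).prod) (v q) = 1 := by
    intro a b hab hb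
    have hc := hcol a b hab hb
    refine ⟨hc.choose, ?_, hc.choose_spec⟩
    simp only [c, dif_pos hc]
  obtain ⟨q1, hq1, he1⟩ := hspec i j hij (by omega)
  obtain ⟨q2, hq2, he2⟩ := hspec j m hjm (by omega)
  obtain ⟨q3, hq3, he3⟩ := hspec i m (by omega) (by omega)
  have h12 : q1 = q2 := by
    have := hq1.symm.trans (hc1.trans hq2)
    exact Option.some.inj this
  have h13 : q1 = q3 := by
    have := hq1.symm.trans (hc2.trans hq3)
    exact Option.some.inj this
  subst h12; subst h13
  have hx := hH q1 _ _ (hcr q1 _ _ (cross_blocks l hl2 i j m hij hjm))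
  have e4 : ((l.take i).prod⁻¹ * (l.take j).prod) * ((l.take j).prod⁻¹ * (l.take m).prod) =
      (l.take i).prod⁻¹ * (l.take m).prod := by group
  rw [e4, he1, he2, he3] at hx
  simp at hx
  exact hv q1 hx

end

end Pool.Agent.Helper321.VH
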