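import Mathlib

set_option autoImplicit false

namespace Pool.Agent.Helper321.VH

open Pointwise

variable {G : Type*} [Group G]

/-- relative value of the word `w` at the perturbed tuple `g * u` -/
def L {ι : Type*} (w : FreeGroup ι) (g u : ι → G) : G :=
  (FreeGroup.lift g w)⁻¹ * FreeGroup.lift (g * u) w

theorem lift_mul_eq {ι : Type*} (w : FreeGroup ι) (g u : ι → G) :
    FreeGroup.lift (g * u) w = FreeGroup.lift g w * L w g u := by
  simp [L]

theorem L_mul {ι : Type*} (x y : FreeGroup ι) (g u : ι → G) :
    L (x * y) g u = (FreeGroup.lift g y)⁻¹ * L x g u * (FreeGroup.lift g y) * L y g u := by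
  simp [L, mul_assoc]

/-- finite expansion set of a word -/
theorem exp_exists {ι : Type*} (w : FreeGroup ι) (g : ι → G) :
    ∃ H : Set G, H.Finite ∧
      (∀ (u : ι → G) (D : Subgroup G), (∀ i, ∀ h ∈ H, h⁻¹ * u i * h ∈ D) → L w g u ∈ D) ∧
      (∀ u u' : ι → G,
        (∀ i j, ∀ h ∈ H, ∀ h' ∈ H, Commute (h⁻¹ * u i * h) (h'⁻¹ * u' j * h')) →
        L w g (u * u') = L w g u * L w g u') := by
  induction w using FreeGroup.induction_on with
  | C1 =>
    refine ⟨∅, Set.finite_empty, ?_, ?_⟩
    · intro u D _
      simp [L, D.one_mem]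
    · intro u u' _
      simp [L]
  | of i =>
    refine ⟨{1}, Set.finite_singleton _, ?_, ?_⟩
    · intro u D h
      have := h i 1 rfl
      simpa [L] using this
    · intro u u' _
      simp [L]
  | inv_of i ih =>
    refine ⟨{(g i)⁻¹}, Set.finite_singleton _, ?_, ?_⟩
    · intro u D h
      have := h i (g i)⁻¹ rfl
      have h2 := D.inv_mem this
      simpa [L, mul_assoc] using h2
    · intro u u' h
      have h1 := h i i (g i)⁻¹ rfl (g i)⁻¹ rfl
      simp only [inv_inv] at h1
      have h2 : Commute (u i) (u' i) := by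
        have := h1.eq
        have h3 : g i * (u i * u' i) * (g i)⁻¹ = g i * (u' i * u i) * (g i)⁻¹ := by
          simpa [mul_assoc] using this
        exact mul_left_cancel (mul_right_cancel h3)
      have h4 : (u' i)⁻¹ * (u i)⁻¹ = (u i)⁻¹ * (u' i)⁻¹ := by
        rw [← mul_inv_rev, h2.eq, mul_inv_rev]
      have e1 : L (FreeGroup.of i)⁻¹ g (u * u') =
          g i * ((u' i)⁻¹ * (u i)⁻¹) * (g i)⁻¹ := by
        simp [L, mul_assoc]
      rw [e1, h4]
      simp [L, mul_assoc]
  | mul x y hx hy =>
    obtain ⟨Hx, hxf, hx1, hx2⟩ := hx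
    obtain ⟨Hy, hyf, hy1, hy2⟩ := hy
    set Y := FreeGroup.lift g y with hY
    refine ⟨(fun h => h * Y) '' Hx ∪ Hy, (hxf.image _).union hyf, ?_, ?_⟩
    · intro u D h
      rw [L_mul]
      refine D.mul_mem ?_ (hy1 u D fun i k hk => h i k (Or.inr hk))
      have := hx1 u (D.comap (MulAut.conj Y⁻¹).toMonoidHom) (fun i k hk => by
        have h5 := h i (k * Y) (Or.inl ⟨k, hk, rfl⟩)
        simp only [Subgroup.mem_comap, MulEquiv.coe_toMonoidHom, MulAut.conj_apply, inv_inv]
        simpa [mul_assoc] using h5)
      simpa [Subgroup.mem_comap, mul_assoc] using this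
    · intro u u' h
      simp only [L_mul, ← hY]
      rw [hx2 u u' ?_, hy2 u u' ?_]
      · -- commute swap
        have key : Commute (Y⁻¹ * L x g u' * Y) (L y g u) := by
          have a1 : ∀ i, ∀ k ∈ Hx, Y⁻¹ * (k⁻¹ * u' i * k) * Y ∈
              Subgroup.centralizer ({L y g u} : Set G) := by
            intro i k hk
            have b1 : L y g u ∈ Subgroup.centralizer ({Y⁻¹ * (k⁻¹ * u' i * k) * Y} : Set G) := by
              refine hy1 u _ ?_
              intro j m hm
              rw [Subgroup.mem_centralizer_singleton_iff]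
              have := h j i m (Or.inr hm) (k * Y) (Or.inl ⟨k, hk, rfl⟩)
              have h6 := this.eq
              simpa [mul_assoc] using h6
            rw [Subgroup.mem_centralizer_singleton_iff] at b1 ⊢
            exact b1.symm
          have a2 := hx1 u' ((Subgroup.centralizer ({L y g u} : Set G)).comap
            (MulAut.conj Y⁻¹).toMonoidHom) (fun i k hk => by
              have := a1 i k hk
              simpa [Subgroup.mem_comap, mul_assoc] using this)
          have a3 : Y⁻¹ * L x g u' * Y ∈ Subgroup.centralizer ({L y g u} : Set G) := by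
            simpa [Subgroup.mem_comap, mul_assoc] using a2
          rw [Subgroup.mem_centralizer_singleton_iff] at a3
          exact a3
        have e1 : Y⁻¹ * (L x g u * L x g u') * Y * (L y g u * L y g u') =
            (Y⁻¹ * L x g u * Y) * ((Y⁻¹ * L x g u' * Y) * L y g u) * L y g u' := by
          simp [mul_assoc]
        rw [e1, key.eq]
        simp [mul_assoc]
      · intro i j k hk k' hk'
        exact h i j k (Or.inr hk) k' (Or.inr hk')
      · intro i j k hk k' hk'
        have := h i j (k * Y) (Or.inl ⟨k, hk, rfl⟩) (k' * Y) (Or.inl ⟨k', hk', rfl⟩)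
        have h7 := this.eq
        have h8 : Y⁻¹ * ((k⁻¹ * u i * k) * (k'⁻¹ * u' j * k')) * Y =
            Y⁻¹ * ((k'⁻¹ * u' j * k') * (k⁻¹ * u i * k)) * Y := by
          simpa [mul_assoc] using h7
        exact mul_left_cancel (mul_right_cancel h8)

end Pool.Agent.Helper321.VH
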