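import Pool.Agent.Helper321.VH.Abel

set_option autoImplicit false

namespace Pool.Agent.Helper321.VH

variable {G : Type*} [Group G]

/-- in an infinite FC-subgroup `C` the common centralizer of a finite subset is infinite -/
theorem fc_inf (C : Subgroup G) (hinf : (C : Set G).Infinite)
    (hFC : ∀ x ∈ C, {z : G | ∃ y ∈ C, z = y * x * y⁻¹}.Finite)
    (F : Set G) (hF : F.Finite) (hFC' : F ⊆ C) :
    {v : G | v ∈ C ∧ ∀ s ∈ F, Commute s v}.Infinite := by
  classical
  haveI : Infinite C := hinf.to_subtype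
  haveI : Finite F := hF
  haveI : ∀ s : F, Finite {z : G | ∃ y ∈ C, z = y * (s : G) * y⁻¹} := fun s =>
    (hFC s (hFC' s.2))
  let κ : C → (∀ s : F, {z : G | ∃ y ∈ C, z = y * (s : G) * y⁻¹}) := fun y s =>
    ⟨(y : G) * s * (y : G)⁻¹, (y : G), y.2, rfl⟩
  obtain ⟨c, hc⟩ := Finite.exists_infinite_fiber κ
  have hi : (κ ⁻¹' {c}).Infinite := Set.infinite_coe_iff.mp hc
  obtain ⟨y0, hy0⟩ := hi.nonempty
  have himg : ((fun y : C => ((y0 : G)⁻¹ * (y : G))) '' (κ ⁻¹' {c})).Infinite :=
    hi.image (by
      intro x _ y _ hxy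
      apply Subtype.ext
      simpa using hxy)
  refine himg.mono ?_
  rintro _ ⟨y, hy, rfl⟩
  refine ⟨C.mul_mem (C.inv_mem y0.2) y.2, ?_⟩
  intro s hs
  have h1 : κ y = κ y0 := by
    rw [Set.mem_preimage, Set.mem_singleton_iff] at hy hy0
    rw [hy, hy0]
  have h2 : (y : G) * s * (y : G)⁻¹ = (y0 : G) * s * (y0 : G)⁻¹ :=
    congrArg Subtype.val (congrFun h1 ⟨s, hs⟩)
  have h3 : s * ((y0 : G)⁻¹ * y) = ((y0 : G)⁻¹ * y) * s := by
    have h4 : (y : G) * s = (y0 : G) * s * (y0 : G)⁻¹ * y := by
      rw [← h2]; simp [mul_assoc]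
    rw [mul_assoc, h4]; simp [mul_assoc]
  exact h3

/-- the relation: all translates commute -/
def Cross (H : Set G) (x y : G) : Prop :=
  ∀ h ∈ H, ∀ h' ∈ H, Commute (h⁻¹ * x * h) (h'⁻¹ * y * h')

theorem Cross.symm {H : Set G} {x y : G} (hxy : Cross H x y) : Cross H y x :=
  fun h hh h' hh' => (hxy h' hh' h hh).symm

theorem Cross.one_right {H : Set G} (x : G) : Cross H x 1 := by
  intro h _ h' _
  simp

theorem Cross.mul_right {H : Set G} {x y z : G} (h1 : Cross H x y) (h2 : Cross H x z) :
    Cross H x (y * z) := by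
  intro h hh h' hh'
  have e : h'⁻¹ * (y * z) * h' = (h'⁻¹ * y * h') * (h'⁻¹ * z * h') := by simp [mul_assoc]
  rw [e]
  exact (h1 h hh h' hh').mul_right (h2 h hh h' hh')

theorem Cross.list_right {H : Set G} {x : G} (l : List G) (hl : ∀ y ∈ l, Cross H x y) :
    Cross H x l.prod := by
  induction l with
  | nil => simpa using Cross.one_right x
  | cons a l ih =>
    rw [List.prod_cons]
    exact (hl a (by simp)).mul_right (ih fun y hy => hl y (by simp [hy]))

theorem Cross.one_left {H : Set G} (x : G) : Cross H 1 x := (Cross.one_right x).symm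

section

variable {n : ℕ} (w : FreeGroup (Fin n)) (g : Fin n → G) (H : Set G)
  (h2 : ∀ u u' : Fin n → G,
        (∀ i j, Cross H (u i) (u' j)) →
        L w g (u * u') = L w g u * L w g u')

include h2

theorem L_single_list (i : Fin n) (ζ : G) (l : List G)
    (hl : l.Pairwise (Cross H)) (hζ : ∀ x ∈ l, L w g (Pi.mulSingle i x) = ζ) :
    L w g (Pi.mulSingle i l.prod) = ζ ^ l.length := by
  induction l with
  | nil => simp [L]
  | cons a l ih =>
    rw [List.pairwise_cons] at hl
    rw [List.prod_cons, Pi.mulSingle_mul, h2, hζ a (by simp),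
      ih hl.2 (fun x hx => hζ x (by simp [hx])), List.length_cons, pow_succ']
    intro j k
    have hc : Cross H a l.prod := Cross.list_right l hl.1
    by_cases hj : j = i
    · by_cases hk : k = i
      · subst hj; subst hk; simpa using hc
      · rw [Pi.mulSingle_eq_of_ne hk]; exact Cross.one_right _
    · rw [Pi.mulSingle_eq_of_ne hj]; exact Cross.one_left _

theorem L_tuple_one (c : Fin n → G) (hc : ∀ i j, i ≠ j → Cross H (c i) (c j))
    (h1 : ∀ i, L w g (Pi.mulSingle i (c i)) = 1) : L w g c = 1 := by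
  classical
  have key : ∀ s : Finset (Fin n), L w g (fun i => if i ∈ s then c i else 1) = 1 := by
    intro s
    induction s using Finset.induction_on with
    | empty =>
      have : (fun i : Fin n => if i ∈ (∅ : Finset (Fin n)) then c i else 1) = 1 := by
        funext i; simp
      rw [this]; simp [L]
    | insert a s ha ih =>
      have e : (fun i => if i ∈ insert a s then c i else 1) =
          Pi.mulSingle a (c a) * (fun i => if i ∈ s then c i else 1) := by
        funext i
        by_cases hi : i = a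
        · subst hi; simp [ha]
        · simp [hi]
      rw [e, h2, h1, ih, one_mul]
      intro j k
      by_cases hj : j = a
      · subst hj
        by_cases hk : k ∈ s
        · simp only [hk, if_true, Pi.mulSingle_eq_same]
          exact hc _ _ (fun h => ha (h ▸ hk))
        · simp only [hk, if_false]; exact Cross.one_right _
      · rw [Pi.mulSingle_eq_of_ne hj]; exact Cross.one_left _
  have := key Finset.univ
  simpa using this

end

theorem fc_case {n : ℕ} (w : FreeGroup (Fin n)) (hs : Sharp w G)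
    (C : Subgroup G) [hC : C.Normal] (hinf : (C : Set G).Infinite)
    (hFC : ∀ x ∈ C, {z : G | ∃ y ∈ C, z = y * x * y⁻¹}.Finite) (g : Fin n → G) :
    FreeGroup.lift g w = 1 := by
  classical
  set Z : Subgroup G := (Subgroup.center C).map C.subtype with hZ
  haveI hZn : Z.Normal := inferInstance
  have hmemZ : ∀ x : G, x ∈ Z ↔ x ∈ C ∧ ∀ y ∈ C, y * x = x * y := by
    intro x
    rw [hZ, Subgroup.mem_map]
    constructor
    · rintro ⟨⟨x', hx'⟩, hx, rfl⟩
      refine ⟨hx', fun y hy => ?_⟩
      rw [Subgroup.mem_center_iff] at hx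
      exact congrArg Subtype.val (hx ⟨y, hy⟩)
    · rintro ⟨hxC, hx⟩
      refine ⟨⟨x, hxC⟩, ?_, rfl⟩
      rw [Subgroup.mem_center_iff]
      rintro ⟨y, hy⟩
      exact Subtype.ext (hx y hy)
  by_cases hZinf : (Z : Set G).Infinite
  · exact abel_case w hs Z (fun x hx y hy =>
      ((hmemZ y).mp hy).2 x ((hmemZ x).mp hx).1) hZinf g
  have hZfin : (Z : Set G).Finite := Set.not_infinite.mp hZinf
  -- values of w lie in Z
  have claim1 : ∀ g : Fin n → G, FreeGroup.lift g w ∈ Z := by
    intro g
    by_contra hz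
    obtain ⟨H, hHf, h1, h2⟩ := exp_exists w g
    have hLC : ∀ u : Fin n → G, (∀ i, u i ∈ C) → L w g u ∈ C := by
      intro u hu
      refine h1 u C fun i h _ => ?_
      have := hC.conj_mem (u i) (hu i) h⁻¹
      simpa using this
    by_cases hzC : FreeGroup.lift g w ∈ C
    · have : ∃ s ∈ C, s * FreeGroup.lift g w ≠ FreeGroup.lift g w * s := by
        by_contra hcon
        push Not at hcon
        exact hz ((hmemZ _).mpr ⟨hzC, hcon⟩)
      obtain ⟨s, hsC, hsne⟩ := this
      have hUinf := fc_inf C hinf hFC ((fun h => h * s * h⁻¹) '' H) (hHf.image _) (by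
        rintro _ ⟨h, _, rfl⟩
        exact hC.conj_mem s hsC h)
      set U : Set G := {v : G | v ∈ C ∧ ∀ t ∈ (fun h => h * s * h⁻¹) '' H, Commute t v} with hU
      let X : Fin n → Set G := fun i => (fun a : G => g i * a) '' U
      obtain ⟨x, hx, hwx⟩ := hs X (fun i => hUinf.image (by
        intro a _ b _ hab
        simpa using hab))
      choose a ha hax using hx
      have hxg : x = g * a := by
        funext i
        rw [Pi.mul_apply]
        exact (hax i).symm
      rw [hxg, lift_mul_eq] at hwx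
      have hLs : L w g a ∈ Subgroup.centralizer ({s} : Set G) := by
        refine h1 a _ fun i h hh => ?_
        rw [Subgroup.mem_centralizer_singleton_iff]
        have := (ha i).2 (h * s * h⁻¹) ⟨h, hh, rfl⟩
        have h3 := this.eq
        have h4 : h⁻¹ * ((h * s * h⁻¹) * a i) * h = h⁻¹ * (a i * (h * s * h⁻¹)) * h := by
          rw [h3]
        simpa [mul_assoc] using h4.symm
      have h3 : FreeGroup.lift g w = (L w g a)⁻¹ := eq_inv_of_mul_eq_one_left hwx
      have h4 : FreeGroup.lift g w ∈ Subgroup.centralizer ({s} : Set G) := by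
        rw [h3]; exact Subgroup.inv_mem _ hLs
      rw [Subgroup.mem_centralizer_singleton_iff] at h4
      exact hsne h4.symm
    · let X : Fin n → Set G := fun i => (fun a : G => g i * a) '' (C : Set G)
      obtain ⟨x, hx, hwx⟩ := hs X (fun i => hinf.image (by
        intro a _ b _ hab
        simpa using hab))
      choose a ha hax using hx
      have hxg : x = g * a := by
        funext i
        rw [Pi.mul_apply]
        exact (hax i).symm
      rw [hxg, lift_mul_eq] at hwx
      apply hzC
      have h3 : FreeGroup.lift g w = (L w g a)⁻¹ := eq_inv_of_mul_eq_one_left hwx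
      rw [h3]
      exact C.inv_mem (hLC a ha)
  by_contra hz
  obtain ⟨H, hHf, h1, h2⟩ := exp_exists w g
  have h2' : ∀ u u' : Fin n → G, (∀ i j, Cross H (u i) (u' j)) →
      L w g (u * u') = L w g u * L w g u' := h2
  have hLZ : ∀ u : Fin n → G, L w g u ∈ Z := fun u =>
    Z.mul_mem (Z.inv_mem (claim1 g)) (claim1 (g * u))
  -- greedy sequence
  have hsymm : Std.Symm (fun x y : G => x ≠ y ∧ Cross H x y) :=
    ⟨fun x y h => ⟨h.1.symm, h.2.symm⟩⟩
  obtain ⟨f, hfC, hfr⟩ := exists_seq_of_forall_finset_exists' (fun x : G => x ∈ C)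
    (fun x y => x ≠ y ∧ Cross H x y) (by
      intro s hsC
      have hFfin : (Set.image2 (fun (p : G × G) x => (p.1 * p.2⁻¹) * x * (p.1 * p.2⁻¹)⁻¹)
          (H ×ˢ H) (s : Set G)).Finite := (hHf.prod hHf).image2 _ s.finite_toSet
      have hUinf := fc_inf C hinf hFC _ hFfin (by
        rintro _ ⟨p, _, x, hx, rfl⟩
        exact hC.conj_mem x (hsC x hx) _)
      obtain ⟨y, hy, hys⟩ := (hUinf.sdiff s.finite_toSet).nonempty
      refine ⟨y, hy.1, fun x hx => ⟨fun h => hys (h ▸ hx), ?_⟩⟩
      intro h hh h' hh'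
      have h3 := (hy.2 ((h' * h⁻¹) * x * (h' * h⁻¹)⁻¹) ⟨(h', h), ⟨hh', hh⟩, x, hx, rfl⟩).eq
      have h4 : h'⁻¹ * (((h' * h⁻¹) * x * (h' * h⁻¹)⁻¹) * y) * h' =
          h'⁻¹ * (y * ((h' * h⁻¹) * x * (h' * h⁻¹)⁻¹)) * h' := by rw [h3]
      have h5 : (h⁻¹ * x * h) * (h'⁻¹ * y * h') = (h'⁻¹ * y * h') * (h⁻¹ * x * h) := by
        simpa [mul_assoc] using h4
      exact h5)
  haveI : Finite Z := hZfin
  let κ : ℕ → (Fin n → Z) := fun k i => ⟨L w g (Pi.mulSingle i (f k)), hLZ _⟩
  obtain ⟨ζ, hζ⟩ := Finite.exists_infinite_fiber κ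
  let e0 := Infinite.natEmbedding (κ ⁻¹' {ζ})
  let φ : ℕ → ℕ := fun k => (e0 k : ℕ)
  have hφinj : Function.Injective φ := fun a b h => e0.injective (Subtype.ext h)
  have hφζ : ∀ k i, L w g (Pi.mulSingle i (f (φ k))) = ζ i := by
    intro k i
    have h3 : κ (φ k) = ζ := (e0 k).2
    have h4 := congrFun h3 i
    exact congrArg Subtype.val h4
  let v : Fin n → ℕ → G := fun i m => f (φ (Nat.pair i m))
  have hvr : ∀ i m j l, (i ≠ j ∨ m ≠ l) → v i m ≠ v j l ∧ Cross H (v i m) (v j l) := by
    intro i m j l hne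
    refine hfr ?_
    intro h
    have h3 := hφinj h
    rw [Nat.pair_eq_pair] at h3
    rcases hne with h4 | h4
    · exact h4 (Fin.ext h3.1)
    · exact h4 h3.2
  have hvC : ∀ i m, v i m ∈ C := fun i m => hfC _
  set e : ℕ := Nat.card Z with he
  have hepos : 0 < e := Nat.card_pos
  let lst : Fin n → ℕ → List G := fun i m => (List.range (e - 1) ++ [m]).map (v i)
  have hlstlen : ∀ i m, (lst i m).length = e := by
    intro i m
    simp [lst]; omega
  have hlstpair : ∀ i m, e - 1 ≤ m → (lst i m).Pairwise (Cross H) := by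
    intro i m hm
    have hnodup : (List.range (e - 1) ++ [m]).Nodup := by
      rw [List.nodup_append]
      refine ⟨List.nodup_range, List.nodup_singleton _, ?_⟩
      intro a ha b hb
      rw [List.mem_range] at ha
      rw [List.mem_singleton] at hb
      omega
    refine List.Pairwise.map _ ?_ hnodup
    intro a b hab
    exact (hvr i a i b (Or.inr hab)).2
  have hLone : ∀ i m, e - 1 ≤ m → L w g (Pi.mulSingle i (lst i m).prod) = 1 := by
    intro i m hm
    rw [L_single_list w g H h2' i (ζ i : G) (lst i m) (hlstpair i m hm), hlstlen]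
    · have : (ζ i) ^ e = 1 := pow_card_eq_one'
      have h3 := congrArg (Subtype.val) this
      simpa using h3
    · intro x hx
      rw [List.mem_map] at hx
      obtain ⟨k, _, rfl⟩ := hx
      exact hφζ _ i
  let S : Fin n → Set G := fun i => (fun m => (lst i m).prod) '' {m | e - 1 ≤ m}
  have hSinf : ∀ i, (S i).Infinite := by
    intro i
    refine Set.Infinite.image ?_ (Set.infinite_of_not_bddAbove ?_)
    · intro a _ b _ hab
      by_contra hne
      have h3 : ((List.range (e - 1)).map (v i)).prod * v i a =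
          ((List.range (e - 1)).map (v i)).prod * v i b := by
        simpa [lst] using hab
      exact (hvr i a i b (Or.inr hne)).1 (mul_left_cancel h3)
    · rintro ⟨b, hb⟩
      have := hb (show b + e ∈ {m | e - 1 ≤ m} by simp; omega)
      omega
  let X : Fin n → Set G := fun i => (fun a : G => g i * a) '' (S i)
  obtain ⟨x, hx, hwx⟩ := hs X (fun i => (hSinf i).image (by
    intro a _ b _ hab
    simpa using hab))
  choose a ha hax using hx
  have hxg : x = g * a := by
    funext i
    rw [Pi.mul_apply]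
    exact (hax i).symm
  rw [hxg, lift_mul_eq] at hwx
  choose m hm hma using ha
  have hL1 : L w g a = 1 := by
    refine L_tuple_one w g H h2' a ?_ ?_
    · intro i j hij
      rw [← hma i, ← hma j]
      refine Cross.list_right _ fun y hy => ?_
      refine Cross.symm (Cross.list_right _ fun y' hy' => ?_)
      rw [List.mem_map] at hy hy'
      obtain ⟨k, _, rfl⟩ := hy
      obtain ⟨k', _, rfl⟩ := hy'
      exact (hvr j k i k' (Or.inl hij.symm)).2
    · intro i
      rw [← hma i]
      exact hLone i (m i) (hm i)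
  rw [hL1, mul_one] at hwx
  exact hz hwx

end Pool.Agent.Helper321.VH
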