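import Pool.Agent.Helper321.VH.Block

set_option autoImplicit false

namespace Pool.Agent.Helper321.VH

section
variable {G : Type*} [Group G]

/-- FC case -/
theorem fc_ext (C : Subgroup G) [hC : C.Normal] (hinf : (C : Set G).Infinite)
    (hFC : ∀ x ∈ C, {z : G | ∃ y ∈ C, z = y * x * y⁻¹}.Finite)
    (H : Set G) (hHf : H.Finite) (t : ℕ) (n : ℕ) :
    ∀ F : Set G, F.Finite → F ⊆ C → Ext H t n {z | z ∈ C ∧ ∀ s ∈ F, Cross H s z} := by
  classical
  induction n with
  | zero => intro F _ _; trivial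
  | succ n ih =>
    intro F hF hFC2 A _
    have hFfin : (Set.image2 (fun (p : G × G) x => (p.1 * p.2⁻¹) * x * (p.1 * p.2⁻¹)⁻¹)
        (H ×ˢ H) F).Finite := (hHf.prod hHf).image2 _ hF
    have hUinf := fc_inf C hinf hFC _ hFfin (by
      rintro _ ⟨p, _, x, hx, rfl⟩
      exact hC.conj_mem x (hFC2 hx) _)
    obtain ⟨y, hy, hys⟩ := (hUinf.sdiff A.finite_toSet).nonempty
    have hcr : ∀ x ∈ F, Cross H x y := by
      intro x hx h hh h' hh'
      have h3 := (hy.2 ((h' * h⁻¹) * x * (h' * h⁻¹)⁻¹) ⟨(h', h), ⟨hh', hh⟩, x, hx, rfl⟩).eq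
      have h4 : h'⁻¹ * (((h' * h⁻¹) * x * (h' * h⁻¹)⁻¹) * y) * h' =
          h'⁻¹ * (y * ((h' * h⁻¹) * x * (h' * h⁻¹)⁻¹)) * h' := by rw [h3]
      have h5 : (h⁻¹ * x * h) * (h'⁻¹ * y * h') = (h'⁻¹ * y * h') * (h⁻¹ * x * h) := by
        simpa [mul_assoc] using h4
      exact h5
    refine ⟨y, ⟨hy.1, hcr⟩, by simpa using hys, ?_⟩
    refine (ih (insert y F) (hF.insert y) (Set.insert_subset hy.1 hFC2)).mono ?_
    intro z hz
    exact ⟨⟨hz.1, fun s hs => hz.2 s (Set.mem_insert_of_mem _ hs)⟩, hz.2 y (Set.mem_insert _ _)⟩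

/-- elements of `N` with finite conjugacy class -/
def fcRad (N : Subgroup G) : Subgroup G where
  carrier := {x | x ∈ N ∧ (Set.range fun y : G => y * x * y⁻¹).Finite}
  one_mem' := ⟨N.one_mem, by simp⟩
  mul_mem' := by
    rintro a b ⟨ha, ha'⟩ ⟨hb, hb'⟩
    refine ⟨N.mul_mem ha hb, (ha'.image2 (fun x y => x * y) hb').subset ?_⟩
    rintro _ ⟨y, rfl⟩
    exact ⟨_, ⟨y, rfl⟩, _, ⟨y, rfl⟩, by group⟩
  inv_mem' := by
    rintro a ⟨ha, ha'⟩
    refine ⟨N.inv_mem ha, (ha'.image (fun x => x⁻¹)).subset ?_⟩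
    rintro _ ⟨y, rfl⟩
    exact ⟨_, ⟨y, rfl⟩, by group⟩

theorem mem_fcRad {N : Subgroup G} {x : G} :
    x ∈ fcRad N ↔ x ∈ N ∧ (Set.range fun y : G => y * x * y⁻¹).Finite := Iff.rfl

instance fcRad_normal (N : Subgroup G) [hN : N.Normal] : (fcRad N).Normal where
  conj_mem := by
    rintro x ⟨hx, hx'⟩ g
    refine ⟨hN.conj_mem x hx g, hx'.subset ?_⟩
    rintro _ ⟨y, rfl⟩
    exact ⟨y * g, by group⟩

/-- the last derived term outside `R` -/
theorem exists_D (K R M : Subgroup G) (hKM : ∀ k ∈ K, ∀ x ∈ M, k * x * k⁻¹ ∈ M)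
    (hsol : Group.IsSolvable M) (hMR : ¬ M ≤ R) :
    ∃ D : Subgroup G, D ≤ M ∧ (∀ k ∈ K, ∀ x ∈ D, k * x * k⁻¹ ∈ D) ∧ ¬ D ≤ R ∧ ⁅D, D⁆ ≤ R := by
  let Ds : ℕ → Subgroup G := fun i => (derivedSeries M i).map M.subtype
  have hsucc : ∀ i, Ds (i + 1) = ⁅Ds i, Ds i⁆ := by
    intro i
    simp only [Ds, derivedSeries_succ, Subgroup.map_commutator]
  have h0 : Ds 0 = M := by
    simp [Ds, ← MonoidHom.range_eq_map]
  obtain ⟨r, hr⟩ := hsol.solvable
  have hr' : Ds r ≤ R := by simp [Ds, hr]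
  have hex : ∃ i, Ds i ≤ R := ⟨r, hr'⟩
  classical
  obtain ⟨i, hi, hmin⟩ : ∃ i, Ds i ≤ R ∧ ∀ j < i, ¬ Ds j ≤ R :=
    ⟨Nat.find hex, Nat.find_spec hex, fun j hj => Nat.find_min hex hj⟩
  have hi0 : i ≠ 0 := by
    rintro rfl
    rw [h0] at hi
    exact hMR hi
  obtain ⟨j, rfl⟩ := Nat.exists_eq_succ_of_ne_zero hi0
  refine ⟨Ds j, ?_, ?_, hmin j (Nat.lt_succ_self j), ?_⟩
  · rintro _ ⟨x, _, rfl⟩
    exact x.2
  · have hinv : ∀ i, ∀ k ∈ K, (Ds i).map (MulAut.conj k).toMonoidHom ≤ Ds i := by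
      intro i
      induction i with
      | zero =>
        intro k hk
        rw [h0]
        rintro _ ⟨x, hx, rfl⟩
        simpa using hKM k hk x hx
      | succ i ih =>
        intro k hk
        rw [hsucc, Subgroup.map_commutator]
        exact Subgroup.commutator_mono (ih k hk) (ih k hk)
    intro k hk x hx
    have := hinv j k hk (Subgroup.mem_map_of_mem (MulAut.conj k).toMonoidHom hx)
    simpa using this
  · rw [← hsucc]; exact hi

/-- bounds for the large case -/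
def bnd (t q : ℕ) : ℕ → ℕ
  | 0 => 0
  | (n + 1) => t + 1 + q * bnd t q n

theorem large_ext (D0 R : Subgroup G) (hD0 : (D0 : Set G).Finite) (hRf : (R : Set G).Finite)
    (hcomm : ∀ x ∈ D0, ∀ y ∈ D0, y * x * y⁻¹ * x⁻¹ ∈ R)
    (H : Set G) (hHf : H.Finite)
    (hH : ∀ p ∈ hHf.toFinset ×ˢ hHf.toFinset, ∀ x ∈ D0,
      (p.1 * p.2⁻¹) * x * (p.1 * p.2⁻¹)⁻¹ ∈ D0) (t : ℕ) (n : ℕ) :
    ∀ D' : Subgroup G, D' ≤ D0 →
      bnd t (hRf.toFinset.card ^ (hHf.toFinset ×ˢ hHf.toFinset).card) n ≤ Nat.card D' →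
      Ext H t n (D' : Set G) := by
  classical
  set HH := hHf.toFinset ×ˢ hHf.toFinset with hHH
  set q := hRf.toFinset.card ^ HH.card with hq
  have hRpos : 0 < hRf.toFinset.card := Finset.card_pos.mpr ⟨1, by
    rw [Set.Finite.mem_toFinset]; exact R.one_mem⟩
  have hqpos : 0 < q := Nat.pow_pos hRpos
  induction n with
  | zero => intro D' _ _; trivial
  | succ n ih =>
    intro D' hD' hb A hA
    haveI : Finite D0 := hD0
    haveI : Finite D' := Finite.of_injective (Subgroup.inclusion hD') (Subgroup.inclusion_injective hD')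
    have hD'f : (D' : Set G).Finite := Set.toFinite _
    have hcardeq : hD'f.toFinset.card = Nat.card D' := by
      exact (Nat.card_eq_card_finite_toFinset hD'f).symm
    obtain ⟨y, hy, hyA⟩ : ∃ y ∈ hD'f.toFinset, y ∉ A := by
      apply Finset.exists_mem_notMem_of_card_lt_card
      rw [hcardeq]
      have : bnd t q (n + 1) = t + 1 + q * bnd t q n := rfl
      omega
    rw [Set.Finite.mem_toFinset] at hy
    let S : Set G := (fun p : G × G => (p.1 * p.2⁻¹) * y * (p.1 * p.2⁻¹)⁻¹) '' (HH : Set (G × G))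
    set D'' : Subgroup G := D' ⊓ Subgroup.centralizer S with hD''
    haveI : Finite D'' := Finite.of_injective (Subgroup.inclusion (inf_le_left : D'' ≤ D'))
      (Subgroup.inclusion_injective _)
    have hD''f : (D'' : Set G).Finite := Set.toFinite _
    have hcardeq2 : hD''f.toFinset.card = Nat.card D'' := by
      exact (Nat.card_eq_card_finite_toFinset hD''f).symm
    -- index bound
    have hidx : Nat.card D' ≤ Nat.card D'' * q := by
      rw [← hcardeq, ← hcardeq2]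
      let κ : G → (∀ p ∈ HH, G) := fun z p _ =>
        z * ((p.1 * p.2⁻¹) * y * (p.1 * p.2⁻¹)⁻¹) * z⁻¹ * ((p.1 * p.2⁻¹) * y * (p.1 * p.2⁻¹)⁻¹)⁻¹
      have hmaps : ∀ z ∈ hD'f.toFinset, κ z ∈ HH.pi (fun _ => hRf.toFinset) := by
        intro z hz
        rw [Set.Finite.mem_toFinset] at hz
        rw [Finset.mem_pi]
        intro p hp
        rw [Set.Finite.mem_toFinset]
        exact hcomm _ (hH p hp y (hD' hy)) z (hD' hz)
      have h1 := Finset.card_le_mul_card_image_of_maps_to (f := κ) hmaps hD''f.toFinset.card (by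
        intro b hb
        by_cases hne : (hD'f.toFinset.filter fun z => κ z = b).Nonempty
        · obtain ⟨z0, hz0⟩ := hne
          rw [Finset.mem_filter, Set.Finite.mem_toFinset] at hz0
          refine Finset.card_le_card_of_injOn (fun z => z0⁻¹ * z) ?_ ?_
          · intro z hz
            rw [Finset.mem_coe, Finset.mem_filter, Set.Finite.mem_toFinset] at hz
            rw [Set.Finite.coe_toFinset]
            refine ⟨D'.mul_mem (D'.inv_mem hz0.1) hz.1, ?_⟩
            change z0⁻¹ * z ∈ Subgroup.centralizer S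
            rw [Subgroup.mem_centralizer_iff]
            rintro _ ⟨p, hp, rfl⟩
            have h5 : κ z = κ z0 := hz.2.trans hz0.2.symm
            have h6 := congrFun (congrFun h5 p) hp
            simp only [κ] at h6
            have h7 := mul_right_cancel h6
            dsimp only
            generalize (p.1 * p.2⁻¹) * y * (p.1 * p.2⁻¹)⁻¹ = s at h7 ⊢
            have h8 : z * s = z0 * s * z0⁻¹ * z := by rw [← h7]; group
            calc s * (z0⁻¹ * z) = z0⁻¹ * (z0 * s * z0⁻¹ * z) := by group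
              _ = z0⁻¹ * (z * s) := by rw [h8]
              _ = z0⁻¹ * z * s := by group
          · intro a _ b _ hab
            simpa using hab
        · rw [Finset.not_nonempty_iff_eq_empty] at hne
          rw [hne]; simp)
      refine h1.trans ?_
      refine Nat.mul_le_mul_left _ ?_
      rw [Finset.card_pi, Finset.prod_const]
    refine ⟨y, hy, hyA, (ih D'' (inf_le_left.trans hD') ?_).mono ?_⟩
    · have h2 : bnd t q (n + 1) = t + 1 + q * bnd t q n := rfl
      have h3 : q * bnd t q n ≤ q * Nat.card D'' := by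
        calc q * bnd t q n ≤ bnd t q (n + 1) := by omega
          _ ≤ Nat.card D' := hb
          _ ≤ Nat.card D'' * q := hidx
          _ = q * Nat.card D'' := mul_comm _ _
      exact Nat.le_of_mul_le_mul_left h3 hqpos
    · rintro z ⟨hz1, hz2⟩
      refine ⟨hz1, ?_⟩
      intro h hh h' hh'
      change z ∈ Subgroup.centralizer S at hz2
      rw [Subgroup.mem_centralizer_iff] at hz2
      have h3 := hz2 ((h' * h⁻¹) * y * (h' * h⁻¹)⁻¹) ⟨(h', h), by
        simp only [hHH, Finset.coe_product, Set.Finite.coe_toFinset, Set.mem_prod]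
        exact ⟨hh', hh⟩, rfl⟩
      have h4 : h'⁻¹ * (((h' * h⁻¹) * y * (h' * h⁻¹)⁻¹) * z) * h' =
          h'⁻¹ * (z * ((h' * h⁻¹) * y * (h' * h⁻¹)⁻¹)) * h' := by rw [h3]
      have h5 : (h⁻¹ * y * h) * (h'⁻¹ * z * h') = (h'⁻¹ * z * h') * (h⁻¹ * y * h) := by
        simpa [mul_assoc] using h4
      exact h5

end

end Pool.Agent.Helper321.VH
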