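import Pool.Agent.Helper321.VH.LF

set_option autoImplicit false

namespace Pool.Agent.Helper321.VH

section
variable {G : Type*} [Group G]

theorem growth_exists (hlf : ∀ S : Set G, S.Finite → (Subgroup.closure S : Set G).Finite)
    (N : Subgroup G) (B : ℕ) (K : Subgroup G) (hK : (K : Set G).Finite) :
    ∃ K' : Subgroup G, (K' : Set G).Finite ∧ K ≤ K' ∧ ∀ x ∈ K, x ∈ N → x ∉ fcRad N →
      ∀ F : Finset G, F.card ≤ B → ∃ k ∈ K', k * x * k⁻¹ ∉ F := by
  classical
  have h1 : ∀ x : G, ∃ S : Finset G, x ∈ N → x ∉ fcRad N → ∀ F : Finset G, F.card ≤ B →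
      ∃ s ∈ S, s * x * s⁻¹ ∉ F := by
    intro x
    by_cases hx : x ∈ N ∧ x ∉ fcRad N
    · have hinf : (Set.range fun y : G => y * x * y⁻¹).Infinite := by
        intro hfin
        exact hx.2 (mem_fcRad.mpr ⟨hx.1, hfin⟩)
      obtain ⟨Z, hZ, hZc⟩ := hinf.exists_subset_card_eq (B + 1)
      have hZ' : ∀ z : G, z ∈ Z → ∃ y : G, y * x * y⁻¹ = z := fun z hz => hZ hz
      choose! g hg using hZ'
      refine ⟨Z.image g, fun _ _ F hF => ?_⟩
      obtain ⟨z, hz, hzF⟩ := Finset.exists_mem_notMem_of_card_lt_card (s := F) (t := Z) (by omega)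
      exact ⟨g z, Finset.mem_image_of_mem g hz, by rw [hg z hz]; exact hzF⟩
    · exact ⟨∅, fun h2 h3 => absurd ⟨h2, h3⟩ hx⟩
  choose S hS using h1
  refine ⟨Subgroup.closure ((K : Set G) ∪ ⋃ x ∈ (K : Set G), (S x : Set G)),
    hlf _ (hK.union (hK.biUnion fun x _ => (S x).finite_toSet)), ?_, ?_⟩
  · intro x hx
    exact Subgroup.subset_closure (Or.inl hx)
  · intro x hxK hxN hxR F hF
    obtain ⟨s, hs, hsF⟩ := hS x hxN hxR F hF
    exact ⟨s, Subgroup.subset_closure (Or.inr (Set.mem_biUnion hxK hs)), hsF⟩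

theorem lfs_ext (hlf : ∀ S : Set G, S.Finite → (Subgroup.closure S : Set G).Finite)
    (N : Subgroup G) [hNn : N.Normal] (hNinf : (N : Set G).Infinite)
    (hsol : ∀ M : Subgroup G, (M : Set G).Finite → M ≤ N → Group.IsSolvable M)
    (H : Set G) (hHf : H.Finite) (t n : ℕ) : Ext H t n (Set.univ : Set G) := by
  classical
  by_cases hRinf : (fcRad N : Set G).Infinite
  · refine (fc_ext (fcRad N) hRinf ?_ H hHf t n ∅ Set.finite_empty (Set.empty_subset _)).mono
      (Set.subset_univ _)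
    intro x hx
    refine (mem_fcRad.mp hx).2.subset ?_
    rintro _ ⟨y, _, rfl⟩
    exact ⟨y, rfl⟩
  have hRf : (fcRad N : Set G).Finite := Set.not_infinite.mp hRinf
  obtain ⟨x0, hx0N, hx0R⟩ := hNinf.exists_notMem_finite hRf
  set K0 : Subgroup G := Subgroup.closure (H ∪ {x0}) with hK0
  have hK0f : (K0 : Set G).Finite := hlf _ (hHf.union (Set.finite_singleton _))
  have hHK0 : ∀ h ∈ H, h ∈ K0 := fun h hh => Subgroup.subset_closure (Or.inl hh)
  have hx0K0 : x0 ∈ K0 := Subgroup.subset_closure (Or.inr rfl)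
  set B := bnd t (hRf.toFinset.card ^ (hHf.toFinset ×ˢ hHf.toFinset).card) n with hB
  -- the subgroups `D`
  have hD : ∀ K : Subgroup G, (K : Set G).Finite → K0 ≤ K → ∃ D : Subgroup G, D ≤ K ∧ D ≤ N ∧
      (∀ k ∈ K, ∀ x ∈ D, k * x * k⁻¹ ∈ D) ∧ ¬ D ≤ fcRad N ∧ ⁅D, D⁆ ≤ fcRad N := by
    intro K hKf hK
    obtain ⟨D, h1, h2, h3, h4⟩ := exists_D K (fcRad N) (K ⊓ N)
      (fun k hk x hx => ⟨K.mul_mem (K.mul_mem hk hx.1) (K.inv_mem hk), hNn.conj_mem x hx.2 k⟩)
      (hsol _ (hKf.subset fun x hx => hx.1) inf_le_right)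
      (fun hle => hx0R (hle ⟨hK hx0K0, hx0N⟩))
    exact ⟨D, h1.trans inf_le_left, h1.trans inf_le_right, h2, h3, h4⟩
  by_cases hbig : ∃ K : Subgroup G, (K : Set G).Finite ∧ K0 ≤ K ∧ ∃ D : Subgroup G, D ≤ K ∧
      (∀ k ∈ K, ∀ x ∈ D, k * x * k⁻¹ ∈ D) ∧ ⁅D, D⁆ ≤ fcRad N ∧ B ≤ Nat.card D
  · obtain ⟨K, hKf, hK, D, hDK, hDinv, hDR, hDB⟩ := hbig
    refine (large_ext D (fcRad N) (hKf.subset hDK) hRf ?_ H hHf ?_ t n D le_rfl hDB).mono
      (Set.subset_univ _)
    · intro x hx y hy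
      have := hDR (Subgroup.commutator_mem_commutator hy hx)
      simpa [commutatorElement_def] using this
    · intro p hp x hx
      rw [Finset.mem_product, Set.Finite.mem_toFinset, Set.Finite.mem_toFinset] at hp
      exact hDinv _ (K.mul_mem (hK (hHK0 _ hp.1)) (K.inv_mem (hK (hHK0 _ hp.2)))) x hx
  push Not at hbig
  -- the chain
  let St := {K : Subgroup G // (K : Set G).Finite}
  have hgrow : ∀ K : St, ∃ K' : St, K.1 ≤ K'.1 ∧ ∀ x ∈ K.1, x ∈ N → x ∉ fcRad N →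
      ∀ F : Finset G, F.card ≤ B → ∃ k ∈ K'.1, k * x * k⁻¹ ∉ F := by
    rintro ⟨K, hK⟩
    obtain ⟨K', h1, h2, h3⟩ := growth_exists hlf N B K hK
    exact ⟨⟨K', h1⟩, h2, h3⟩
  choose nxt hn1 hn2 using hgrow
  let seq : ℕ → St := fun k => nxt^[k] ⟨K0, hK0f⟩
  have hseq : ∀ k, seq (k + 1) = nxt (seq k) := fun k => by
    simp only [seq]; rw [Function.iterate_succ_apply']
  let K : ℕ → Subgroup G := fun k => (seq k).1
  have hKf : ∀ k, (K k : Set G).Finite := fun k => (seq k).2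
  have hKmono : Monotone K := monotone_nat_of_le_succ fun k => by
    simp only [K]; rw [hseq]; exact hn1 _
  have hK0K : ∀ k, K0 ≤ K k := fun k => hKmono (Nat.zero_le k)
  have hKgrow : ∀ k, ∀ x ∈ K k, x ∈ N → x ∉ fcRad N →
      ∀ F : Finset G, F.card ≤ B → ∃ y ∈ K (k + 1), y * x * y⁻¹ ∉ F := by
    intro k
    have := hn2 (seq k)
    rw [← hseq] at this
    exact this
  choose D hDK hDN hDinv hDR hDR2 using fun k => hD (K k) (hKf k) (hK0K k)
  have hDcard : ∀ k, Nat.card (D k) < B := fun k =>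
    hbig (K k) (hKf k) (hK0K k) (D k) (hDK k) (hDinv k) (hDR2 k)
  have hDf : ∀ k, (D k : Set G).Finite := fun k => (hKf k).subset (hDK k)
  have hDfc : ∀ k, (hDf k).toFinset.card < B := fun k => by
    have : (hDf k).toFinset.card = Nat.card (D k) :=
      (Nat.card_eq_card_finite_toFinset (hDf k)).symm
    rw [this]; exact hDcard k
  have hxex : ∀ k, ∃ x ∈ D k, x ∉ fcRad N := fun k => by
    by_contra hcon
    push Not at hcon
    exact hDR k hcon
  choose x hxD hxR using hxex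
  have hxK : ∀ k, x k ∈ K k := fun k => hDK k (hxD k)
  have hnew : ∀ k l, k < l → x l ∉ K k := by
    intro k l hkl hx
    obtain ⟨y, hy, hyF⟩ := hKgrow k (x l) hx (hDN l (hxD l)) (hxR l) (hDf l).toFinset
      (hDfc l).le
    apply hyF
    rw [Set.Finite.mem_toFinset]
    exact hDinv l y (hKmono hkl hy) _ (hxD l)
  -- the main claim
  suffices h : ∀ m, ∀ I : Set ℕ, I.Infinite →
      Ext H t m {z | ∃ i ∈ I, ∃ j ∈ I, i < j ∧ z = (x i)⁻¹ * x j} from
    (h n Set.univ Set.infinite_univ).mono (Set.subset_univ _)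
  intro m
  induction m with
  | zero => intro I _; trivial
  | succ m ih =>
    intro I hI A _
    -- avoid `A`
    obtain ⟨n0, hn0⟩ : ∃ n0, ∀ a ∈ A, (∃ k, a ∈ K k) → a ∈ K n0 := by
      have h1 : ∀ a : G, ∃ k0, (∃ k, a ∈ K k) → a ∈ K k0 := by
        intro a
        by_cases h : ∃ k, a ∈ K k
        · obtain ⟨k, hk⟩ := h
          exact ⟨k, fun _ => hk⟩
        · exact ⟨0, fun h' => absurd h' h⟩
      choose f hf using h1
      refine ⟨A.sup f, fun a ha hk => ?_⟩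
      exact hKmono (Finset.le_sup ha) (hf a hk)
    have hI0 : (I ∩ {i | n0 ≤ i}).Infinite := by
      have h1 : (I \ {i | i < n0}).Infinite := hI.sdiff (Set.finite_lt_nat n0)
      refine h1.mono ?_
      rintro i ⟨hi, hi'⟩
      refine ⟨hi, ?_⟩
      simpa using hi'
    obtain ⟨J, hJ, hJc⟩ := hI0.exists_subset_card_eq (B ^ B + 1)
    -- pigeonhole for each l
    have hpig : ∀ l, (∀ i ∈ J, i < l) → ∃ i : J, ∃ j : J, (i : ℕ) < j ∧
        ∀ d ∈ D l, Commute ((x i)⁻¹ * x j) d := by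
      intro l hl
      haveI : Finite (D l) := hDf l
      haveI := Fintype.ofFinite (D l)
      let κ : J → (D l → D l) := fun i d =>
        ⟨x i * d * (x i)⁻¹, hDinv l _ (hKmono (hl i i.2).le (hxK i)) _ d.2⟩
      have hcard : Fintype.card (D l → D l) < Fintype.card J := by
        rw [Fintype.card_coe, hJc, Fintype.card_fun]
        have h1 : Fintype.card (D l) < B := by
          rw [← Nat.card_eq_fintype_card]; exact hDcard l
        have h2 : Fintype.card (D l) ^ Fintype.card (D l) ≤ B ^ B := by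
          calc Fintype.card (D l) ^ Fintype.card (D l) ≤ B ^ Fintype.card (D l) :=
                Nat.pow_le_pow_left h1.le _
            _ ≤ B ^ B := Nat.pow_le_pow_right (by omega) h1.le
        omega
      obtain ⟨i, j, hij, hκ⟩ := Fintype.exists_ne_map_eq_of_card_lt κ hcard
      have hcomm : ∀ i j : J, κ i = κ j → ∀ d ∈ D l, Commute ((x i)⁻¹ * x j) d := by
        intro i j h d hd
        have h1 : x i * d * (x i)⁻¹ = x j * d * (x j)⁻¹ :=
          congrArg Subtype.val (congrFun h ⟨d, hd⟩)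
        have h2 : x j * d = x i * d * (x i)⁻¹ * x j := by rw [h1]; group
        change (x i)⁻¹ * x j * d = d * ((x i)⁻¹ * x j)
        calc (x i)⁻¹ * x j * d = (x i)⁻¹ * (x j * d) := by group
          _ = (x i)⁻¹ * (x i * d * (x i)⁻¹ * x j) := by rw [h2]
          _ = d * ((x i)⁻¹ * x j) := by group
      rcases lt_or_gt_of_ne (fun h => hij (Subtype.ext h) : (i : ℕ) ≠ j) with h | h
      · exact ⟨i, j, h, hcomm i j hκ⟩
      · exact ⟨j, i, h, hcomm j i hκ.symm⟩
    -- infinite pigeonhole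
    let I1 : Set ℕ := I \ {l | l ≤ J.sup id}
    have hI1 : I1.Infinite := hI.sdiff (Set.finite_le_nat _)
    haveI : Infinite I1 := hI1.to_subtype
    have hI1J : ∀ l ∈ I1, ∀ i ∈ J, i < l := by
      rintro l ⟨_, hl⟩ i hi
      have h1 : i ≤ J.sup id := Finset.le_sup (f := id) hi
      have h2 : J.sup id < l := by simpa using hl
      omega
    have hpig' : ∀ l : I1, ∃ p : J × J, (p.1 : ℕ) < p.2 ∧
        ∀ d ∈ D l, Commute ((x p.1)⁻¹ * x p.2) d := by
      rintro ⟨l, hl⟩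
      obtain ⟨i, j, h⟩ := hpig l (hI1J l hl)
      exact ⟨(i, j), h⟩
    choose π hπ1 hπ2 using hpig'
    obtain ⟨p, hp⟩ := Finite.exists_infinite_fiber π
    have hfib : (π ⁻¹' {p}).Infinite := Set.infinite_coe_iff.mp hp
    let I2 : Set ℕ := Subtype.val '' (π ⁻¹' {p})
    have hI2 : I2.Infinite := hfib.image (Subtype.val_injective.injOn)
    have hI2I : ∀ l ∈ I2, l ∈ I := by
      rintro _ ⟨l, _, rfl⟩
      exact l.2.1
    have hI2c : ∀ l ∈ I2, ∀ d ∈ D l, Commute ((x p.1)⁻¹ * x p.2) d := by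
      rintro _ ⟨l, hl, rfl⟩
      have : π l = p := hl
      rw [← this]
      exact hπ2 l
    have hplt : (p.1 : ℕ) < p.2 := by
      obtain ⟨l, hl⟩ := hfib.nonempty
      have : π l = p := hl
      rw [← this]
      exact hπ1 l
    have hp1 := hJ p.1.2
    have hp2 := hJ p.2.2
    refine ⟨(x p.1)⁻¹ * x p.2, ⟨p.1, hp1.1, p.2, hp2.1, hplt, rfl⟩, ?_, ?_⟩
    · intro hA
      have hy : (x p.1)⁻¹ * x p.2 ∈ K p.2 :=
        (K p.2).mul_mem ((K p.2).inv_mem (hKmono hplt.le (hxK p.1))) (hxK p.2)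
      have h1 := hn0 _ hA ⟨_, hy⟩
      have h2 : (x p.1)⁻¹ * x p.2 ∈ K p.1 := hKmono hp1.2 h1
      have h3 := (K p.1).mul_mem (hxK p.1) h2
      rw [mul_inv_cancel_left] at h3
      exact hnew p.1 p.2 hplt h3
    · refine (ih I2 hI2).mono ?_
      rintro z ⟨i, hi, j, hj, hij, rfl⟩
      refine ⟨⟨i, hI2I i hi, j, hI2I j hj, hij, rfl⟩, ?_⟩
      -- cross commutation
      have hconjH : ∀ l, ∀ h ∈ H, ∀ d ∈ D l, h⁻¹ * d * h ∈ D l ∧ h * d * h⁻¹ ∈ D l := by
        intro l h hh d hd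
        have h1 := hDinv l h⁻¹ ((K l).inv_mem (hK0K l (hHK0 h hh))) d hd
        rw [inv_inv] at h1
        exact ⟨h1, hDinv l h (hK0K l (hHK0 h hh)) d hd⟩
      have hcc : ∀ l ∈ I2, ∀ h ∈ H, ∀ d ∈ D l,
          Commute (h⁻¹ * ((x p.1)⁻¹ * x p.2) * h) d := by
        intro l hl h hh d hd
        have h1 := (hI2c l hl (h * d * h⁻¹) ((hconjH l h hh d hd).2)).eq
        change h⁻¹ * ((x p.1)⁻¹ * x p.2) * h * d = d * (h⁻¹ * ((x p.1)⁻¹ * x p.2) * h)
        generalize (x p.1)⁻¹ * x p.2 = y at h1 ⊢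
        calc h⁻¹ * y * h * d = h⁻¹ * (y * (h * d * h⁻¹)) * h := by group
          _ = h⁻¹ * ((h * d * h⁻¹) * y) * h := by rw [h1]
          _ = d * (h⁻¹ * y * h) := by group
      intro h hh h' hh'
      have e : h'⁻¹ * ((x i)⁻¹ * x j) * h' = (h'⁻¹ * x i * h')⁻¹ * (h'⁻¹ * x j * h') := by group
      rw [e]
      exact ((hcc i hi h hh _ (hconjH i h' hh' _ (hxD i)).1).inv_right).mul_right
        (hcc j hj h hh _ (hconjH j h' hh' _ (hxD j)).1)

theorem lfs_znd (hlf : ∀ S : Set G, S.Finite → (Subgroup.closure S : Set G).Finite)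
    (N : Subgroup G) [hNn : N.Normal] (hNinf : (N : Set G).Infinite)
    (hsol : ∀ M : Subgroup G, (M : Set G).Finite → M ≤ N → Group.IsSolvable M) : ZND G :=
  ext_znd fun H hH t n => lfs_ext hlf N hNinf hsol H hH t n

end

end Pool.Agent.Helper321.VH
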