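import Pool.Agent.Helper321.VH.ZND

set_option autoImplicit false

namespace Pool.Agent.Helper321.VH

section
variable {G : Type*} [Group G]

/-- infinite linear groups -/
theorem lin_znd {m : ℕ} {F : Type*} [Field F] [Infinite G]
    (ρ : G →* Matrix.GeneralLinearGroup (Fin m) F) (hρ : Function.Injective ρ) : ZND G := by
  classical
  intro k v hv hfin
  -- entries
  let e : Fin m × Fin m → (G → F) := fun p x => (ρ x).val p.1 p.2
  let e' : Fin m × Fin m → (G → F) := fun p x => (ρ x⁻¹).val p.1 p.2
  let E : Submodule F (G → F) := Submodule.span F (({1} ∪ Set.range e) ∪ Set.range e')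
  have hE1 : (1 : G → F) ∈ E := Submodule.subset_span (by simp)
  have hEe : ∀ p, e p ∈ E := fun p => Submodule.subset_span (by
    left; right; exact ⟨p, rfl⟩)
  have hEe' : ∀ p, e' p ∈ E := fun p => Submodule.subset_span (by
    right; exact ⟨p, rfl⟩)
  have hEfg : E.FG := Submodule.fg_span
    (((Set.finite_singleton _).union (Set.finite_range e)).union (Set.finite_range e'))
  -- translation
  let τ : G → (G → F) →ₐ[F] (G → F) := fun h =>
    AlgHom.pi (fun x => Pi.evalAlgHom F (fun _ : G => F) (h * x))
  have hτapp : ∀ h f x, τ h f x = f (h * x) := fun h f x => rfl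
  have hτE : ∀ h, E.map (τ h).toLinearMap ≤ E := by
    intro h
    rw [Submodule.map_span_le]
    intro f hf
    rcases hf with (hf | hf) | hf
    · rw [Set.mem_singleton_iff] at hf
      subst hf
      have : (τ h).toLinearMap 1 = 1 := map_one (τ h)
      rw [this]; exact hE1
    · obtain ⟨p, rfl⟩ := hf
      have : (τ h).toLinearMap (e p) = ∑ l, (ρ h).val p.1 l • e (l, p.2) := by
        funext x
        change (ρ (h * x)).val p.1 p.2 = _
        rw [map_mul]
        simp [Matrix.mul_apply, e]
      rw [this]
      exact Submodule.sum_mem _ fun l _ => Submodule.smul_mem _ _ (hEe _)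
    · obtain ⟨p, rfl⟩ := hf
      have : (τ h).toLinearMap (e' p) = ∑ l, (ρ h⁻¹).val l p.2 • e' (p.1, l) := by
        funext x
        change (ρ (h * x)⁻¹).val p.1 p.2 = _
        rw [mul_inv_rev, map_mul]
        simp only [Units.val_mul, Matrix.mul_apply, e', Finset.sum_apply, Pi.smul_apply,
          smul_eq_mul]
        exact Finset.sum_congr rfl fun l _ => mul_comm _ _
      rw [this]
      exact Submodule.sum_mem _ fun l _ => Submodule.smul_mem _ _ (hEe' _)
  have hτP : ∀ D h f, f ∈ E ^ D → τ h f ∈ E ^ D := by
    intro D h f hf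
    have h1 : (E ^ D).map (τ h).toLinearMap ≤ E ^ D := by
      rw [Submodule.map_pow]
      exact pow_le_pow_left' (hτE h) D
    exact h1 (Submodule.mem_map_of_mem (f := (τ h).toLinearMap) hf)
  have h1P : ∀ D : ℕ, (1 : G → F) ∈ E ^ D := fun D => by
    simpa using Submodule.pow_mem_pow E hE1 D
  have hcP : ∀ (D : ℕ) (c : F), (fun _ => c : G → F) ∈ E ^ D := fun D c => by
    have := Submodule.smul_mem _ c (h1P D)
    convert this using 1
    funext x; simp
  -- entries of words
  have hw : ∀ u : FreeGroup (Option G), ∃ D, ∀ i j,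
      (fun x => (ρ (ev x u)).val i j) ∈ E ^ D ∧ (fun x => (ρ (ev x u)⁻¹).val i j) ∈ E ^ D := by
    intro u
    induction u using FreeGroup.induction_on with
    | C1 =>
      refine ⟨0, fun i j => ⟨?_, ?_⟩⟩
      · have : (fun x => (ρ (ev x (1 : FreeGroup (Option G)))).val i j) =
            (fun _ => (1 : Matrix (Fin m) (Fin m) F) i j : G → F) := by
          funext x; simp [ev]
        rw [this]; exact hcP 0 _
      · have : (fun x => (ρ (ev x (1 : FreeGroup (Option G)))⁻¹).val i j) =
            (fun _ => (1 : Matrix (Fin m) (Fin m) F) i j : G → F) := by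
          funext x; simp [ev]
        rw [this]; exact hcP 0 _
    | of o =>
      refine ⟨1, fun i j => ?_⟩
      rw [pow_one]
      cases o with
      | none =>
        refine ⟨?_, ?_⟩
        · have : (fun x => (ρ (ev x (FreeGroup.of (none : Option G)))).val i j) = e (i, j) := by
            funext x; simp [ev, e]
          change (fun x => (ρ (ev x (FreeGroup.of (none : Option G)))).val i j) ∈ E
          rw [this]; exact hEe _
        · have : (fun x => (ρ (ev x (FreeGroup.of (none : Option G)))⁻¹).val i j) = e' (i, j) := by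
            funext x; simp only [ev, e', FreeGroup.lift_apply_of, Option.elim_none]
          change (fun x => (ρ (ev x (FreeGroup.of (none : Option G)))⁻¹).val i j) ∈ E
          rw [this]; exact hEe' _
      | some a =>
        refine ⟨?_, ?_⟩
        · have h2 := hcP 1 ((ρ a).val i j)
          rw [pow_one] at h2
          convert h2 using 1
          funext x; simp [ev]
        · have h2 := hcP 1 ((ρ a⁻¹).val i j)
          rw [pow_one] at h2
          convert h2 using 1
          funext x; simp only [ev, FreeGroup.lift_apply_of, Option.elim_some, id]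
    | inv_of o ih =>
      obtain ⟨D, hD⟩ := ih
      refine ⟨D, fun i j => ⟨?_, ?_⟩⟩
      · have h2 := (hD i j).2
        convert h2 using 1
        funext x
        simp only [ev, map_inv]
      · have h2 := (hD i j).1
        convert h2 using 1
        funext x
        simp only [ev, map_inv, inv_inv]
    | mul x y hx hy =>
      obtain ⟨D1, hD1⟩ := hx
      obtain ⟨D2, hD2⟩ := hy
      refine ⟨D1 + D2, fun i j => ⟨?_, ?_⟩⟩
      · have : (fun t => (ρ (ev t (x * y))).val i j) =
            ∑ l, (fun t => (ρ (ev t x)).val i l) * (fun t => (ρ (ev t y)).val l j) := by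
          funext t
          have : ev t (x * y) = ev t x * ev t y := by simp [ev]
          rw [this, map_mul]
          simp [Matrix.mul_apply]
        rw [this, pow_add]
        exact Submodule.sum_mem _ fun l _ => Submodule.mul_mem_mul (hD1 i l).1 (hD2 l j).1
      · have : (fun t => (ρ (ev t (x * y))⁻¹).val i j) =
            ∑ l, (fun t => (ρ (ev t y)⁻¹).val i l) * (fun t => (ρ (ev t x)⁻¹).val l j) := by
          funext t
          have : ev t (x * y) = ev t x * ev t y := by simp [ev]
          rw [this, mul_inv_rev, map_mul]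
          simp only [Units.val_mul, Matrix.mul_apply, Finset.sum_apply, Pi.mul_apply]
        rw [this, add_comm D1 D2, pow_add]
        exact Submodule.sum_mem _ fun l _ => Submodule.mul_mem_mul (hD2 i l).2 (hD1 l j).2
  -- one separating function for each word
  have hsep : ∀ u : FreeGroup (Option G), ev 1 u ≠ 1 → ∃ (D : ℕ) (f : G → F), f ∈ E ^ D ∧
      f 1 ≠ 0 ∧ ∀ x, ev x u = 1 → f x = 0 := by
    intro u hu
    obtain ⟨D, hD⟩ := hw u
    have h2 : (ρ (ev 1 u)).val ≠ 1 := by
      intro h3
      apply hu
      apply hρ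
      rw [map_one]
      exact Units.ext h3
    have h3 : ∃ i j, (ρ (ev 1 u)).val i j ≠ (1 : Matrix (Fin m) (Fin m) F) i j := by
      by_contra hcon
      push Not at hcon
      exact h2 (Matrix.ext hcon)
    obtain ⟨i, j, hij⟩ := h3
    refine ⟨D, (fun x => (ρ (ev x u)).val i j) - (fun _ => (1 : Matrix (Fin m) (Fin m) F) i j),
      Submodule.sub_mem _ (hD i j).1 (hcP D _), ?_, ?_⟩
    · simpa [sub_eq_zero] using hij
    · intro x hx
      simp [hx]
  -- the family of words
  have hprod : ∀ (s : Finset (FreeGroup (Option G))), (∀ u ∈ s, ev 1 u ≠ 1) →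
      ∃ (D : ℕ) (f : G → F), f ∈ E ^ D ∧ f 1 ≠ 0 ∧ ∀ x, (∃ u ∈ s, ev x u = 1) → f x = 0 := by
    intro s
    induction s using Finset.induction_on with
    | empty => exact fun _ => ⟨0, 1, h1P 0, by simp, by simp⟩
    | insert a s ha ih =>
      intro hs
      obtain ⟨D1, f1, h1, h2, h3⟩ := ih fun u hu => hs u (Finset.mem_insert_of_mem hu)
      obtain ⟨D2, f2, h4, h5, h6⟩ := hsep a (hs a (Finset.mem_insert_self _ _))
      refine ⟨D1 + D2, f1 * f2, ?_, ?_, ?_⟩
      · rw [pow_add]; exact Submodule.mul_mem_mul h1 h4
      · simp [h2, h5]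
      · rintro x ⟨u, hu, hx⟩
        rw [Finset.mem_insert] at hu
        rcases hu with rfl | hu
        · simp [h6 x hx]
        · simp [h3 x ⟨u, hu, hx⟩]
  -- isolate 1
  let s : Finset (FreeGroup (Option G)) := (Finset.univ.image v) ∪
    (hfin.toFinset.erase 1).image (fun t => FreeGroup.of none * FreeGroup.of (some t⁻¹))
  obtain ⟨D, f, hfD, hf1, hf0⟩ := hprod s (by
    intro u hu
    simp only [s, Finset.mem_union, Finset.mem_image, Finset.mem_univ, true_and,
      Finset.mem_erase] at hu
    rcases hu with ⟨j, rfl⟩ | ⟨t, ⟨ht, _⟩, rfl⟩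
    · exact hv j
    · simpa [ev] using ht)
  have hf0' : ∀ x, x ≠ 1 → f x = 0 := by
    intro x hx
    apply hf0
    by_cases hxT : ∀ j, ev x (v j) ≠ 1
    · refine ⟨FreeGroup.of none * FreeGroup.of (some x⁻¹), ?_, by simp [ev]⟩
      simp only [s, Finset.mem_union, Finset.mem_image, Finset.mem_univ, true_and,
        Finset.mem_erase]
      right
      exact ⟨x, ⟨hx, by rw [Set.Finite.mem_toFinset]; exact hxT⟩, rfl⟩
    · push Not at hxT
      obtain ⟨j, hj⟩ := hxT
      refine ⟨v j, ?_, hj⟩
      simp only [s, Finset.mem_union, Finset.mem_image, Finset.mem_univ, true_and]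
      left
      exact ⟨j, rfl⟩
  have hδ : ∀ g : G, (Pi.single g (1 : F) : G → F) ∈ E ^ D := by
    intro g
    have h2 := hτP D g⁻¹ f hfD
    have h3 : (Pi.single g (1 : F) : G → F) = (f 1)⁻¹ • τ g⁻¹ f := by
      funext x
      rw [Pi.smul_apply, hτapp]
      by_cases hx : x = g
      · subst hx; simp [hf1]
      · rw [Pi.single_eq_of_ne hx, hf0' (g⁻¹ * x) (by
          intro h4
          exact hx (inv_mul_eq_one.mp h4).symm), smul_zero]
    rw [h3]
    exact Submodule.smul_mem _ _ h2
  have hli : LinearIndependent F (fun g : G => (⟨Pi.single g (1 : F), hδ g⟩ : ↥(E ^ D))) :=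
    LinearIndependent.of_comp (E ^ D).subtype (Pi.linearIndependent_single_one G F)
  have : Module.Finite F ↥(E ^ D) := Module.Finite.iff_fg.mpr (hEfg.pow D)
  have := hli.finite
  exact not_finite G

end

end Pool.Agent.Helper321.VH
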