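import Pool.Agent.Helper321.VH.FC

set_option autoImplicit false

namespace Pool.Agent.Helper321.VH

/-- `H` is infinite and has an infinite normal subgroup which is solvable or an FC-group,
or a Hausdorff group topology that is not discrete, or `H` is residually finite. -/
def Rich (H : Type*) [Group H] : Prop :=
  Infinite H ∧
    ((∃ N : Subgroup H, N.Normal ∧ Infinite N ∧ IsSolvable N) ∨
     (∃ N : Subgroup H, N.Normal ∧ Infinite N ∧
        ∀ x : N, (Set.range fun y : N => y * x * y⁻¹).Finite) ∨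
     (∃ t : TopologicalSpace H, @IsTopologicalGroup H t _ ∧ @T2Space H t ∧
        ¬ @DiscreteTopology H t) ∨
     (∀ x : H, x ≠ 1 → ∃ N : Subgroup H, N.Normal ∧ N.FiniteIndex ∧ x ∉ N))

section
variable {G : Type*} [Group G]

theorem solv_case {n : ℕ} (w : FreeGroup (Fin n)) (hs : Sharp w G)
    (N : Subgroup G) [hN : N.Normal] (hinf : Infinite N) (hsol : IsSolvable N)
    (g : Fin n → G) : FreeGroup.lift g w = 1 := by
  classical
  have hex : ∃ k, (derivedSeries N k : Set N).Finite := by
    obtain ⟨k, hk⟩ := hsol.solvable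
    exact ⟨k, by rw [hk]; simp⟩
  obtain ⟨k, hk, hmin⟩ : ∃ k, (derivedSeries N k : Set N).Finite ∧
      ∀ j < k, ¬ (derivedSeries N j : Set N).Finite :=
    ⟨Nat.find hex, Nat.find_spec hex, fun j hj => Nat.find_min hex hj⟩
  have hk0 : k ≠ 0 := by
    rintro rfl
    rw [derivedSeries_zero] at hk
    exact (Set.infinite_univ (α := N)) (by simpa using hk)
  obtain ⟨j, rfl⟩ := Nat.exists_eq_succ_of_ne_zero hk0
  have hjinf : ((derivedSeries N j : Set N)).Infinite := hmin j (Nat.lt_succ_self j)
  set C : Subgroup G := (derivedSeries N j).map N.subtype with hCdef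
  haveI : C.Normal := inferInstance
  have hCinf : (C : Set G).Infinite := by
    rw [hCdef, Subgroup.coe_map]
    exact hjinf.image (fun x _ y _ h => Subtype.ext h)
  refine fc_case w hs C hCinf ?_ g
  intro x hx
  obtain ⟨x', hx', rfl⟩ := hx
  have hfin : ((fun c : N => ((c * x' : N) : G)) '' (derivedSeries N (j + 1) : Set N)).Finite :=
    hk.image _
  refine hfin.subset ?_
  rintro _ ⟨_, ⟨y', hy', rfl⟩, rfl⟩
  refine ⟨y' * x' * y'⁻¹ * x'⁻¹, ?_, ?_⟩
  · rw [SetLike.mem_coe, derivedSeries_succ]
    exact Subgroup.commutator_mem_commutator hy' hx'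
  · simp

theorem rf_case {n : ℕ} (w : FreeGroup (Fin n)) (hs : Sharp w G) [Infinite G]
    (hrf : ∀ x : G, x ≠ 1 → ∃ N : Subgroup G, N.Normal ∧ N.FiniteIndex ∧ x ∉ N)
    (g : Fin n → G) : FreeGroup.lift g w = 1 := by
  classical
  by_contra hz
  obtain ⟨N, hN, hNf, hzN⟩ := hrf _ hz
  have hNinf : (N : Set G).Infinite := by
    intro hfin
    haveI : Finite N := hfin
    haveI : Finite (G ⧸ N) := inferInstance
    have : Finite G := by
      have e := (Subgroup.groupEquivQuotientProdSubgroup (s := N))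
      exact Finite.of_equiv _ e.symm
    exact not_finite G
  obtain ⟨H, hHf, h1, h2⟩ := exp_exists w g
  let X : Fin n → Set G := fun i => (fun a : G => g i * a) '' (N : Set G)
  obtain ⟨x, hx, hwx⟩ := hs X (fun i => hNinf.image (by
    intro a _ b _ hab
    simpa using hab))
  choose a ha hax using hx
  have hxg : x = g * a := by
    funext i
    rw [Pi.mul_apply]
    exact (hax i).symm
  rw [hxg, lift_mul_eq] at hwx
  apply hzN
  have h3 : FreeGroup.lift g w = (L w g a)⁻¹ := eq_inv_of_mul_eq_one_left hwx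
  rw [h3]
  refine N.inv_mem (h1 a N fun i h _ => ?_)
  have := hN.conj_mem (a i) (ha i) h⁻¹
  simpa using this

theorem lift_continuous {n : ℕ} (w : FreeGroup (Fin n))
    [TopologicalSpace G] [IsTopologicalGroup G] :
    Continuous fun x : Fin n → G => FreeGroup.lift x w := by
  induction w using FreeGroup.induction_on with
  | C1 => simpa using continuous_const
  | of i => simpa using continuous_apply i
  | inv_of i _ =>
    have h : Continuous fun x : Fin n → G => (x i)⁻¹ := (continuous_apply i).inv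
    simpa using h
  | mul x y hx hy =>
    have h : Continuous fun z : Fin n → G => FreeGroup.lift z x * FreeGroup.lift z y :=
      hx.mul hy
    simpa using h

theorem top_case {n : ℕ} (w : FreeGroup (Fin n)) (hs : Sharp w G)
    [TopologicalSpace G] [IsTopologicalGroup G] [T2Space G] (hnd : ¬ DiscreteTopology G)
    (g : Fin n → G) : FreeGroup.lift g w = 1 := by
  classical
  by_contra hz
  have hcont : Continuous fun x : Fin n → G => FreeGroup.lift x w := lift_continuous w
  have hopen : IsOpen {x : Fin n → G | FreeGroup.lift x w ≠ 1} :=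
    isOpen_ne.preimage hcont
  have hmem : {x : Fin n → G | FreeGroup.lift x w ≠ 1} ∈ nhds g := hopen.mem_nhds hz
  rw [nhds_pi, Filter.mem_pi'] at hmem
  obtain ⟨I, t, ht, hsub⟩ := hmem
  have hne : ∀ x : G, (nhdsWithin x {x}ᶜ).NeBot := by
    intro x
    by_contra hbot
    rw [Filter.not_neBot] at hbot
    have hx : IsOpen ({x} : Set G) := (isOpen_singleton_iff_punctured_nhds x).mpr hbot
    apply hnd
    refine discreteTopology_of_isOpen_singleton_one ?_
    have := hx.preimage (continuous_const_mul x)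
    have e : (fun y => x * y) ⁻¹' ({x} : Set G) = {1} := by
      ext y; simp
    rwa [e] at this
  have htinf : ∀ i, (t i).Infinite := fun i => by
    haveI := hne (g i)
    exact infinite_of_mem_nhds (g i) (ht i)
  obtain ⟨x, hx, hwx⟩ := hs t htinf
  exact hsub (fun i _ => hx i) hwx

theorem rich_case {n : ℕ} (w : FreeGroup (Fin n)) (hs : Sharp w G) (hR : Rich G)
    (g : Fin n → G) : FreeGroup.lift g w = 1 := by
  obtain ⟨hinf, h | h | h | h⟩ := hR
  · obtain ⟨N, hN, hNinf, hsol⟩ := h
    haveI := hN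
    exact solv_case w hs N hNinf hsol g
  · obtain ⟨N, hN, hNinf, hFC⟩ := h
    haveI := hN
    refine fc_case w hs N (Set.infinite_coe_iff.mp hNinf) ?_ g
    intro x hx
    refine ((hFC ⟨x, hx⟩).image (Subtype.val)).subset ?_
    rintro _ ⟨y, hy, rfl⟩
    exact ⟨⟨y, hy⟩ * ⟨x, hx⟩ * ⟨y, hy⟩⁻¹, ⟨⟨y, hy⟩, rfl⟩, rfl⟩
  · obtain ⟨t, ht1, ht2, ht3⟩ := h
    exact top_case w hs ht3 g
  · exact rf_case w hs h g

theorem sharp_subgroup {n : ℕ} (w : FreeGroup (Fin n)) (hs : Sharp w G) (H : Subgroup G) :
    Sharp w H := by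
  intro X hX
  obtain ⟨x, hx, hwx⟩ := hs (fun i => Subtype.val '' X i)
    (fun i => (hX i).image (fun a _ b _ h => Subtype.ext h))
  choose a ha hax using hx
  refine ⟨a, ha, ?_⟩
  apply Subtype.ext
  have h1 : H.subtype (FreeGroup.lift a w) = FreeGroup.lift (fun i => H.subtype (a i)) w := by
    have : H.subtype.comp (FreeGroup.lift a) = FreeGroup.lift (fun i => H.subtype (a i)) := by
      apply FreeGroup.ext_hom
      intro i; simp
    rw [← this]; rfl
  have h2 : (fun i => H.subtype (a i)) = x := by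
    funext i; exact hax i
  rw [h2, hwx] at h1
  simpa using h1

theorem main {n : ℕ} (w : FreeGroup (Fin n)) (hs : Sharp w G)
    (hG : ∀ S : Set G, S.Finite → ∃ H : Subgroup G, S ⊆ H ∧ Rich H)
    (g : Fin n → G) : FreeGroup.lift g w = 1 := by
  obtain ⟨H, hSH, hR⟩ := hG (Set.range g) (Set.finite_range g)
  have h := rich_case w (sharp_subgroup w hs H) hR (fun i => ⟨g i, hSH ⟨i, rfl⟩⟩)
  have h1 : H.subtype (FreeGroup.lift (fun i => (⟨g i, hSH ⟨i, rfl⟩⟩ : H)) w) =
      FreeGroup.lift g w := by
    have : H.subtype.comp (FreeGroup.lift (fun i => (⟨g i, hSH ⟨i, rfl⟩⟩ : H))) =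
        FreeGroup.lift g := by
      apply FreeGroup.ext_hom
      intro i; simp
    rw [← this]; rfl
  rw [← h1, h, map_one]

end

end Pool.Agent.Helper321.VH
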