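import Pool.Agent.Helper321.VH.LF2

set_option autoImplicit false

namespace Pool.Agent.Helper321.VH

universe u v

/-- infinite groups for which the law is proved -/
def Rich2 (H : Type u) [Group H] : Prop :=
  Infinite H ∧
    ((∃ N : Subgroup H, N.Normal ∧ Infinite N ∧ Group.IsSolvable N) ∨
     (∃ N : Subgroup H, N.Normal ∧ Infinite N ∧
        ∀ x : N, (Set.range fun y : N => y * x * y⁻¹).Finite) ∨
     (∃ t : TopologicalSpace H, @IsTopologicalGroup H t _ ∧ @T2Space H t ∧
        ¬ @DiscreteTopology H t) ∨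
     (∀ x : H, x ≠ 1 → ∃ N : Subgroup H, N.Normal ∧ N.FiniteIndex ∧ x ∉ N) ∨
     (∃ (F : Type v) (_ : Field F) (m : ℕ) (ρ : H →* Matrix.GeneralLinearGroup (Fin m) F),
        Function.Injective ρ) ∨
     (∀ S : Set (FreeGroup (Option H)), ∃ T : Set (FreeGroup (Option H)), T ⊆ S ∧ T.Finite ∧
        ∀ x : H, (∀ v ∈ T, FreeGroup.lift (fun o : Option H => o.elim x id) v = 1) →
          ∀ v ∈ S, FreeGroup.lift (fun o : Option H => o.elim x id) v = 1) ∨
     (∀ S : Set H, S.Finite → Group.IsSolvable (Subgroup.closure S)) ∨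
     ((∀ S : Set H, S.Finite → Finite (Subgroup.closure S)) ∧
        ∃ N : Subgroup H, N.Normal ∧ Infinite N ∧
          ∀ S : Set H, S.Finite → S ⊆ N → Group.IsSolvable (Subgroup.closure S)))

section
variable {G : Type u} [Group G]

theorem lf_case {n : ℕ} (w : FreeGroup (Fin n)) (hs : Sharp w G)
    (hlf : ∀ S : Set G, S.Finite → Finite (Subgroup.closure S))
    (N : Subgroup G) (hN : N.Normal) (hNinf : Infinite N)
    (hsol : ∀ S : Set G, S.Finite → S ⊆ N → Group.IsSolvable (Subgroup.closure S))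
    (g : Fin n → G) : FreeGroup.lift g w = 1 := by
  haveI := hN
  refine znd_case w hs (lfs_znd (fun S hS => hlf S hS) N (Set.infinite_coe_iff.mp hNinf) ?_) g
  intro M hM hMN
  have h := hsol (M : Set G) hM hMN
  rw [Subgroup.closure_eq] at h
  exact h

theorem sub_transfer {n : ℕ} (w : FreeGroup (Fin n)) (g : Fin n → G) (H : Subgroup G)
    (hg : ∀ i, g i ∈ H)
    (h : FreeGroup.lift (fun i => (⟨g i, hg i⟩ : H)) w = 1) : FreeGroup.lift g w = 1 := by
  have h1 : H.subtype (FreeGroup.lift (fun i => (⟨g i, hg i⟩ : H)) w) = FreeGroup.lift g w := by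
    have : H.subtype.comp (FreeGroup.lift (fun i => (⟨g i, hg i⟩ : H))) =
        FreeGroup.lift g := by
      apply FreeGroup.ext_hom
      intro i; simp
    rw [← this]; rfl
  rw [← h1, h, map_one]

/-- infinite locally soluble groups -/
theorem locsol_case {n : ℕ} (w : FreeGroup (Fin n)) (hs : Sharp w G) (hinf : Infinite G)
    (hls : ∀ S : Set G, S.Finite → Group.IsSolvable (Subgroup.closure S))
    (g : Fin n → G) : FreeGroup.lift g w = 1 := by
  by_cases hlf : ∀ S : Set G, S.Finite → Finite (Subgroup.closure S)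
  · exact lf_case w hs hlf ⊤ inferInstance
      ((Equiv.infinite_iff (Subgroup.topEquiv (G := G)).toEquiv).mpr hinf)
      (fun S hS _ => hls S hS) g
  · push Not at hlf
    obtain ⟨S, hS, hSinf⟩ := hlf
    set K : Subgroup G := Subgroup.closure (S ∪ Set.range g) with hK
    have hle : Subgroup.closure S ≤ K := Subgroup.closure_mono Set.subset_union_left
    have hKinf : Infinite K :=
      Infinite.of_injective (Subgroup.inclusion hle) (Subgroup.inclusion_injective hle)
    have hKsol : Group.IsSolvable K := hls _ (hS.union (Set.finite_range g))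
    refine sub_transfer w g K (fun i => Subgroup.subset_closure (Or.inr ⟨i, rfl⟩)) ?_
    refine solv_case w (sharp_subgroup w hs K) ⊤
      ((Equiv.infinite_iff (Subgroup.topEquiv (G := K)).toEquiv).mpr hKinf) ?_ _
    exact Group.isSolvable_of_isSolvable_injective (f := (Subgroup.topEquiv (G := K)).toMonoidHom)
      (Subgroup.topEquiv (G := K)).injective

theorem rich2_case {n : ℕ} (w : FreeGroup (Fin n)) (hs : Sharp w G) (hR : Rich2.{u, v} G)
    (g : Fin n → G) : FreeGroup.lift g w = 1 := by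
  obtain ⟨hinf, h | h | h | h | h | h | h | h⟩ := hR
  · exact rich_case w hs ⟨hinf, Or.inl h⟩ g
  · exact rich_case w hs ⟨hinf, Or.inr (Or.inl h)⟩ g
  · exact rich_case w hs ⟨hinf, Or.inr (Or.inr (Or.inl h))⟩ g
  · exact rich_case w hs ⟨hinf, Or.inr (Or.inr (Or.inr h))⟩ g
  · obtain ⟨F, hF, m, ρ, hρ⟩ := h
    exact znd_case w hs (lin_znd ρ hρ) g
  · exact znd_case w hs (eqn_znd h) g
  · exact locsol_case w hs hinf h g
  · obtain ⟨hlf, N, hN, hNinf, hsol⟩ := h
    exact lf_case w hs hlf N hN hNinf hsol g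

theorem main2 {n : ℕ} (w : FreeGroup (Fin n)) (hs : Sharp w G)
    (hG : ∀ S : Set G, S.Finite → ∃ H : Subgroup G, S ⊆ H ∧ Rich2.{u, v} H)
    (g : Fin n → G) : FreeGroup.lift g w = 1 := by
  obtain ⟨H, hSH, hR⟩ := hG (Set.range g) (Set.finite_range g)
  exact sub_transfer w g H (fun i => hSH ⟨i, rfl⟩)
    (rich2_case w (sharp_subgroup w hs H) hR _)

end

end Pool.Agent.Helper321.VH
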