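import Pool.Agent.Helper321.VH.Main

set_option autoImplicit false

namespace Pool.Agent.Helper321.VH

/-- evaluation of a one-variable word with constants in `G`: the letter `none` is the variable,
the letter `some a` is the constant `a` -/
def ev {G : Type*} [Group G] (x : G) (v : FreeGroup (Option G)) : G :=
  FreeGroup.lift (fun o : Option G => o.elim x id) v

/-- no finite family of one-variable inequations over `G` that holds at `1` has only finitely many
solutions -/
def ZND (G : Type*) [Group G] : Prop :=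
  ∀ (k : ℕ) (v : Fin k → FreeGroup (Option G)), (∀ j, ev 1 (v j) ≠ 1) →
    {x : G | ∀ j, ev x (v j) ≠ 1}.Infinite

section
variable {G : Type*} [Group G]

theorem ZND.finset (h : ZND G) {ι : Type*} (s : Finset ι) (v : ι → FreeGroup (Option G))
    (hv : ∀ j ∈ s, ev 1 (v j) ≠ 1) : {x : G | ∀ j ∈ s, ev x (v j) ≠ 1}.Infinite := by
  have e := s.equivFin
  have := h s.card (fun j => v (e.symm j)) (fun j => hv _ (e.symm j).2)
  refine this.mono ?_
  intro x hx j hj
  have := hx (e ⟨j, hj⟩)
  simpa using this

variable {n : ℕ} (w : FreeGroup (Fin n))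

/-- good families of finite sets -/
def PF (g : Fin n → G) (F : Fin n → Finset G) : Prop :=
  (∀ i, g i ∈ F i) ∧ ∀ x : Fin n → G, (∀ i, x i ∈ F i) → FreeGroup.lift x w ≠ 1

theorem PF_add (hG : ZND G) (g : Fin n → G) (F : Fin n → Finset G) (hF : PF w g F) (i : Fin n) :
    ∃ F' : Fin n → Finset G, PF w g F' ∧ (∀ j, F j ⊆ F' j) ∧ (F i).card < (F' i).card := by
  classical
  let v : (∀ _ : Fin n, G) → FreeGroup (Option G) := fun x =>
    FreeGroup.lift (fun j => if j = i then FreeGroup.of (some (g i)) * FreeGroup.of none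
      else FreeGroup.of (some (x j))) w
  have hev : ∀ (x : Fin n → G) (t : G), ev t (v x) =
      FreeGroup.lift (Function.update x i (g i * t)) w := by
    intro x t
    have : (FreeGroup.lift (fun o : Option G => o.elim t id)).comp
        (FreeGroup.lift (fun j => if j = i then FreeGroup.of (some (g i)) * FreeGroup.of none
          else FreeGroup.of (some (x j)))) = FreeGroup.lift (Function.update x i (g i * t)) := by
      apply FreeGroup.ext_hom
      intro j
      by_cases hj : j = i
      · subst hj; simp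
      · simp [hj]
    simp only [ev, v]
    rw [← this]; rfl
  have hinf := hG.finset (Fintype.piFinset F) v (by
    intro x hx
    rw [Fintype.mem_piFinset] at hx
    rw [hev]
    refine hF.2 _ fun j => ?_
    by_cases hj : j = i
    · subst hj; simpa using hF.1 j
    · simpa [hj] using hx j)
  have hinf2 : ((fun t => g i * t) '' {t : G | ∀ x ∈ Fintype.piFinset F, ev t (v x) ≠ 1}).Infinite :=
    hinf.image (by
      intro a _ b _ hab
      simpa using hab)
  obtain ⟨_, ⟨t, ht, rfl⟩, hy⟩ := (hinf2.sdiff (F i).finite_toSet).nonempty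
  refine ⟨Function.update F i (insert (g i * t) (F i)), ⟨?_, ?_⟩, ?_, ?_⟩
  · intro j
    by_cases hj : j = i
    · subst hj; simp [hF.1 j]
    · simpa [hj] using hF.1 j
  · intro x hx
    by_cases hxi : x i ∈ F i
    · refine hF.2 x fun j => ?_
      by_cases hj : j = i
      · subst hj; exact hxi
      · simpa [hj] using hx j
    · have hxi2 : x i = g i * t := by
        have := hx i
        simp only [Function.update_self, Finset.mem_insert] at this
        tauto
      have h3 := ht (Function.update x i (g i)) (by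
        rw [Fintype.mem_piFinset]
        intro j
        by_cases hj : j = i
        · subst hj; simpa using hF.1 j
        · simpa [hj] using hx j)
      rw [hev] at h3
      rw [Function.update_idem, ← hxi2, Function.update_eq_self] at h3
      exact h3
  · intro j
    by_cases hj : j = i
    · subst hj; simp
    · simp [hj]
  · simp only [Function.update_self]
    rw [Finset.card_insert_of_notMem (by simpa using hy)]
    omega

theorem PF_add_all (hG : ZND G) (g : Fin n → G) (F : Fin n → Finset G) (hF : PF w g F) :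
    ∃ F' : Fin n → Finset G, PF w g F' ∧ (∀ j, F j ⊆ F' j) ∧ ∀ i, (F i).card < (F' i).card := by
  classical
  have key : ∀ s : Finset (Fin n), ∃ F' : Fin n → Finset G, PF w g F' ∧ (∀ j, F j ⊆ F' j) ∧
      ∀ i ∈ s, (F i).card < (F' i).card := by
    intro s
    induction s using Finset.induction_on with
    | empty => exact ⟨F, hF, fun j => subset_rfl, by simp⟩
    | insert a s ha ih =>
      obtain ⟨F1, hF1, hsub1, hc1⟩ := ih
      obtain ⟨F2, hF2, hsub2, hc2⟩ := PF_add w hG g F1 hF1 a
      refine ⟨F2, hF2, fun j => (hsub1 j).trans (hsub2 j), ?_⟩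
      intro i hi
      rw [Finset.mem_insert] at hi
      rcases hi with rfl | hi
      · exact (Finset.card_le_card (hsub1 i)).trans_lt hc2
      · exact (hc1 i hi).trans_le (Finset.card_le_card (hsub2 i))
  obtain ⟨F', h1, h2, h3⟩ := key Finset.univ
  exact ⟨F', h1, h2, fun i => h3 i (Finset.mem_univ i)⟩

theorem znd_case (hs : Sharp w G) (hG : ZND G) (g : Fin n → G) : FreeGroup.lift g w = 1 := by
  classical
  by_contra hz
  let T := {F : Fin n → Finset G // PF w g F}
  have hstep : ∀ F : T, ∃ F' : T, (∀ j, F.1 j ⊆ F'.1 j) ∧ ∀ i, (F.1 i).card < (F'.1 i).card := by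
    rintro ⟨F, hF⟩
    obtain ⟨F', h1, h2, h3⟩ := PF_add_all w hG g F hF
    exact ⟨⟨F', h1⟩, h2, h3⟩
  choose nxt hn1 hn2 using hstep
  let F0 : T := ⟨fun i => {g i}, fun i => by simp, fun x hx => by
    have : x = g := by funext i; simpa using hx i
    rw [this]; exact hz⟩
  let seq : ℕ → T := fun k => nxt^[k] F0
  have hseq : ∀ k, seq (k + 1) = nxt (seq k) := fun k => by
    simp only [seq]; rw [Function.iterate_succ_apply']
  have hmono : ∀ i, Monotone fun k => (seq k).1 i := by
    intro i
    refine monotone_nat_of_le_succ fun k => ?_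
    rw [hseq]; exact hn1 _ i
  have hcard : ∀ i k, k ≤ ((seq k).1 i).card := by
    intro i k
    induction k with
    | zero => simp
    | succ k ih =>
      rw [hseq]
      exact Nat.succ_le_of_lt (ih.trans_lt (hn2 _ i))
  let X : Fin n → Set G := fun i => ⋃ k, ((seq k).1 i : Set G)
  have hX : ∀ i, (X i).Infinite := by
    intro i hfin
    have h1 := hcard i (hfin.toFinset.card + 1)
    have h2 : ((seq (hfin.toFinset.card + 1)).1 i) ⊆ hfin.toFinset := by
      intro y hy
      rw [Set.Finite.mem_toFinset]
      exact Set.mem_iUnion.mpr ⟨_, hy⟩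
    have := Finset.card_le_card h2
    omega
  obtain ⟨x, hx, hwx⟩ := hs X hX
  have hx' : ∀ i, ∃ k, x i ∈ (seq k).1 i := fun i => by
    simpa [X] using hx i
  choose k hk using hx'
  have := (seq (Finset.univ.sup k)).2.2 x (fun i =>
    hmono i (Finset.le_sup (f := k) (Finset.mem_univ i)) (hk i))
  exact this hwx

/-- infinite equationally Noetherian groups (one variable) -/
theorem eqn_znd [Infinite G]
    (hN : ∀ S : Set (FreeGroup (Option G)), ∃ T : Set (FreeGroup (Option G)), T ⊆ S ∧ T.Finite ∧
      ∀ x : G, (∀ v ∈ T, ev x v = 1) → ∀ v ∈ S, ev x v = 1) : ZND G := by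
  classical
  intro k v hv hfin
  -- V(S)
  let V : Set (FreeGroup (Option G)) → Set G := fun S => {x | ∀ v ∈ S, ev x v = 1}
  -- well-foundedness
  have hwf : ∀ Y : ℕ → Set (FreeGroup (Option G)), (∀ m, V (Y (m + 1)) ⊆ V (Y m)) →
      ∃ m, V (Y m) ⊆ V (Y (m + 1)) := by
    intro Y hY
    let R : ℕ → Set (FreeGroup (Option G)) := fun m => {v | ∀ x ∈ V (Y m), ev x v = 1}
    have hYR : ∀ m, Y m ⊆ R m := fun m v hv x hx => hx v hv
    have hRmono : Monotone R := monotone_nat_of_le_succ fun m v hv x hx => hv x (hY m hx)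
    obtain ⟨T, hTS, hTf, hT⟩ := hN (⋃ m, R m)
    have hTf' : ∃ m, T ⊆ R m := by
      have h1 : ∀ t ∈ T, ∃ m, t ∈ R m := fun t ht => by simpa using hTS ht
      choose! m hm using h1
      refine ⟨hTf.toFinset.sup m, fun t ht => ?_⟩
      exact hRmono (Finset.le_sup (f := m) (hTf.mem_toFinset.mpr ht)) (hm t ht)
    obtain ⟨m, hm⟩ := hTf'
    refine ⟨m, fun x hx v hv => ?_⟩
    exact hT x (fun t ht => hm ht x hx) v (Set.mem_iUnion.mpr ⟨m + 1, hYR _ hv⟩)
  -- a minimal infinite V(S)
  obtain ⟨S, hSinf, hSmin⟩ : ∃ S, (V S).Infinite ∧ ∀ S', V S' ⊆ V S → V S' ≠ V S →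
      (V S').Finite := by
    by_contra hcon
    push Not at hcon
    have h0 : (V ∅).Infinite := by
      have : V ∅ = Set.univ := by ext; simp [V]
      rw [this]; exact Set.infinite_univ
    have hstep : ∀ S : {S // (V S).Infinite}, ∃ S' : {S // (V S).Infinite},
        V S'.1 ⊆ V S.1 ∧ V S'.1 ≠ V S.1 := by
      rintro ⟨S, hS⟩
      obtain ⟨S', h1, h2, h3⟩ := hcon S hS
      exact ⟨⟨S', h3⟩, h1, h2⟩
    choose nxt hn1 hn2 using hstep
    let seq : ℕ → {S // (V S).Infinite} := fun k => nxt^[k] ⟨∅, h0⟩
    have hseq : ∀ k, seq (k + 1) = nxt (seq k) := fun k => by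
      simp only [seq]; rw [Function.iterate_succ_apply']
    obtain ⟨m, hm⟩ := hwf (fun k => (seq k).1) (fun m => by rw [hseq]; exact hn1 _)
    apply hn2 (seq m)
    refine Set.Subset.antisymm (hn1 _) ?_
    rw [← hseq]
    exact hm
  obtain ⟨g, hg⟩ := hSinf.nonempty
  -- translate the words
  let τ : FreeGroup (Option G) → FreeGroup (Option G) := fun u =>
    FreeGroup.lift (fun o : Option G => o.elim (FreeGroup.of (some g⁻¹) * FreeGroup.of none)
      (fun a => FreeGroup.of (some a))) u
  have hτ : ∀ u x, ev x (τ u) = ev (g⁻¹ * x) u := by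
    intro u x
    have : (FreeGroup.lift (fun o : Option G => o.elim x id)).comp
        (FreeGroup.lift (fun o : Option G => o.elim (FreeGroup.of (some g⁻¹) * FreeGroup.of none)
      (fun a => FreeGroup.of (some a)))) =
        FreeGroup.lift (fun o : Option G => o.elim (g⁻¹ * x) id) := by
      apply FreeGroup.ext_hom
      intro o
      cases o <;> simp
    simp only [ev, τ]
    rw [← this]; rfl
  have hcover : V S ⊆ ((fun t => g * t) '' {x : G | ∀ j, ev x (v j) ≠ 1}) ∪
      ⋃ j, V (insert (τ (v j)) S) := by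
    intro x hx
    by_cases h : ∀ j, ev (g⁻¹ * x) (v j) ≠ 1
    · left
      exact ⟨g⁻¹ * x, h, by simp⟩
    · right
      push Not at h
      obtain ⟨j, hj⟩ := h
      rw [Set.mem_iUnion]
      refine ⟨j, ?_⟩
      intro u hu
      rw [Set.mem_insert_iff] at hu
      rcases hu with rfl | hu
      · rw [hτ]; exact hj
      · exact hx u hu
  apply hSinf
  refine Set.Finite.subset ((hfin.image _).union (Set.finite_iUnion fun j => ?_)) hcover
  refine hSmin _ (fun x hx u hu => hx u (Set.mem_insert_of_mem _ hu)) ?_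
  intro heq
  have h1 : g ∈ V (insert (τ (v j)) S) := heq ▸ hg
  have h2 := h1 (τ (v j)) (Set.mem_insert _ _)
  rw [hτ] at h2
  simp only [inv_mul_cancel] at h2
  exact hv j h2

end

end Pool.Agent.Helper321.VH
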